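import Mathlib

/-!
# MP_0852b5_an: definitions

Linear problems `S : X → Y` on convex symmetric classes `F ⊆ X`, deterministic and randomized
non-adaptive algorithms using `n` continuous linear functionals, rates of convergence and the
maximal gain `G`.
-/

open scoped ENNReal NNReal
open MeasureTheory

namespace Pool.Agent.Lib.MP_0852b5_an

section Errors

variable {X Y : Type} [NormedAddCommGroup X] [NormedSpace ℝ X]
  [NormedAddCommGroup Y] [NormedSpace ℝ Y]

/-- The information `(L_1 f, …, L_n f)`. -/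
def info {n : ℕ} (L : Fin n → (X →L[ℝ] ℝ)) (f : X) : Fin n → ℝ := fun i => L i f

/-- The worst case error `sup_{f ∈ F} ‖S f - φ(L_1 f, …, L_n f)‖` of the deterministic
non-adaptive algorithm given by the functionals `L` and the reconstruction map `φ`. -/
noncomputable def detErr (S : X →L[ℝ] Y) (F : Set X) {n : ℕ} (L : Fin n → (X →L[ℝ] ℝ))
    (φ : (Fin n → ℝ) → Y) : ℝ≥0∞ :=
  ⨆ f : F, ‖S f - φ (info L f)‖ₑ

/-- The minimal error of deterministic non-adaptive algorithms using `n` functionals. -/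
noncomputable def eDet (S : X →L[ℝ] Y) (F : Set X) (n : ℕ) : ℝ≥0∞ :=
  ⨅ (L : Fin n → (X →L[ℝ] ℝ)) (φ : (Fin n → ℝ) → Y), detErr S F L φ

/-- `(ω, f) ↦ A ω f` is measurable from the product of the given sigma-algebra on `Ω` and the
Borel sigma-algebra of `F` to the Borel sigma-algebra of `Y`. -/
def MeasAlg {Ω : Type} (mΩ : MeasurableSpace Ω) (F : Set X) (A : Ω → X → Y) : Prop :=
  @Measurable (Ω × F) Y (mΩ.prod (borel F)) (borel Y) (fun p => A p.1 p.2)

/-- A randomized non-adaptive algorithm using `n` functionals: a probability space `Ω`, and for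
every `ω` functionals `L ω 1, …, L ω n` and a reconstruction map `φ ω`, such that
`(ω, f) ↦ φ ω (L ω 1 f, …, L ω n f)` is measurable on `Ω × F`. -/
structure RandAlg (Y : Type) [NormedAddCommGroup Y] [NormedSpace ℝ Y] (F : Set X) (n : ℕ) where
  /-- the probability space -/
  Ω : Type
  /-- its sigma-algebra -/
  mΩ : MeasurableSpace Ω
  /-- its probability measure -/
  P : Measure Ω
  /-- `P` is a probability measure -/
  prob : P Set.univ = 1
  /-- the functionals -/
  L : Ω → Fin n → (X →L[ℝ] ℝ)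
  /-- the reconstruction maps -/
  φ : Ω → (Fin n → ℝ) → Y
  /-- measurability -/
  meas : MeasAlg mΩ F (fun ω f => φ ω (info (L ω) f))

/-- The error `sup_{f ∈ F} E ‖S f - A^ω f‖` of a randomized non-adaptive algorithm. -/
noncomputable def ranErr (S : X →L[ℝ] Y) (F : Set X) {n : ℕ} (A : RandAlg Y F n) : ℝ≥0∞ :=
  ⨆ f : F, @lintegral A.Ω A.mΩ A.P (fun ω => ‖S f - A.φ ω (info (A.L ω) f)‖ₑ)

/-- The minimal error of randomized non-adaptive algorithms using `n` functionals. -/
noncomputable def eRan (S : X →L[ℝ] Y) (F : Set X) (n : ℕ) : ℝ≥0∞ :=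
  ⨅ A : RandAlg Y F n, ranErr S F A

end Errors

/-- `z n ≤ C n^{-α}` for all `n ≥ 1`, with a finite constant `C`. -/
def HasRate (z : ℕ → ℝ≥0∞) (α : ℝ≥0) : Prop :=
  ∃ C : ℝ≥0, ∀ n : ℕ, 1 ≤ n → z n ≤ C * (n : ℝ≥0∞) ^ (-(α : ℝ))

/-- `rate(z_n) = sup {α > 0 : ∃ C, ∀ n, z_n ≤ C n^{-α}}` (`0` if there is no such `α`). -/
noncomputable def rate (z : ℕ → ℝ≥0∞) : ℝ≥0∞ :=
  ⨆ α : {α : ℝ≥0 // 0 < α ∧ HasRate z α}, ((α : ℝ≥0) : ℝ≥0∞)

/-- A linear problem: real Banach spaces `X`, `Y`, a bounded linear operator `S : X → Y` and a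
convex symmetric set `F ⊆ X`. -/
structure LinProblem where
  /-- the source space -/
  X : Type
  /-- the target space -/
  Y : Type
  [nX : NormedAddCommGroup X]
  [sX : NormedSpace ℝ X]
  [cX : CompleteSpace X]
  [nY : NormedAddCommGroup Y]
  [sY : NormedSpace ℝ Y]
  [cY : CompleteSpace Y]
  /-- the solution operator -/
  S : X →L[ℝ] Y
  /-- the class -/
  F : Set X
  /-- the class is convex -/
  convex : Convex ℝ F
  /-- the class is symmetric -/
  symm : ∀ f ∈ F, -f ∈ F

attribute [instance] LinProblem.nX LinProblem.sX LinProblem.cX LinProblem.nY LinProblem.sY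
  LinProblem.cY

/-- The gain in the rate of convergence by non-adaptive randomization, for one problem. -/
noncomputable def gain (p : LinProblem) : EReal :=
  (rate (eRan p.S p.F) : EReal) - (rate (eDet p.S p.F) : EReal)

/-- `G`: the supremum of `rate(e_n^ran-non(S,F)) - rate(e_n^det-non(S,F))` over all problems. -/
noncomputable def G : EReal := ⨆ p : LinProblem, gain p

end Pool.Agent.Lib.MP_0852b5_an
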