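import Mathlib
import Pool.Agent.Lib.MP_0852b5_an.Defs

section

/-!
# MP_0852b5_an: count-sketch, combinatorial part

All probabilities are expressed through sums over finite types.
-/

set_option linter.unusedSectionVars false

namespace Pool.Agent.Lib.MP_0852b5_an

section Resample

variable {ι A : Type} [Fintype ι] [DecidableEq ι] [Fintype A]

/-- Swapping a coordinate of a function with a fresh value. -/
def swapEquiv (i : ι) : ((ι → A) × A) ≃ ((ι → A) × A) where
  toFun q := (Function.update q.1 i q.2, q.1 i)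
  invFun q := (Function.update q.1 i q.2, q.1 i)
  left_inv q := by simp
  right_inv q := by simp

theorem sum_update (i : ι) (f : (ι → A) → ℝ) :
    ∑ ω : ι → A, ∑ a : A, f (Function.update ω i a) = (Fintype.card A : ℝ) * ∑ ω : ι → A, f ω := by
  have h1 : ∑ ω : ι → A, ∑ a : A, f (Function.update ω i a)
      = ∑ q : (ι → A) × A, f (Function.update q.1 i q.2) := by
    rw [Fintype.sum_prod_type]
  have h2 : ∑ q : (ι → A) × A, f (Function.update q.1 i q.2) = ∑ q : (ι → A) × A, f q.1 :=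
    Fintype.sum_equiv (swapEquiv i) _ _ (fun q => rfl)
  rw [h1, h2, Fintype.sum_prod_type]
  simp [Finset.mul_sum]

end Resample

section Hash

variable {ι β : Type} [Fintype ι] [DecidableEq ι] [Fintype β] [DecidableEq β]

/-- The sign of a Boolean. -/
def sg (b : Bool) : ℝ := if b then 1 else -1

theorem sg_sq (b : Bool) : sg b * sg b = 1 := by cases b <;> simp [sg]

theorem abs_sg (b : Bool) : |sg b| = 1 := by cases b <;> simp [sg]

theorem sum_sg : ∑ b : Bool, sg b = 0 := by simp [sg]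

/-- The coefficient with which `x i` enters the estimate of `x j`. -/
def coef (ω : ι → β × Bool) (j i : ι) : ℝ :=
  if (ω i).1 = (ω j).1 then sg (ω i).2 * sg (ω j).2 else 0

/-- The estimate of `x j`. -/
def est (ω : ι → β × Bool) (x : ι → ℝ) (j : ι) : ℝ := ∑ i, coef ω j i * x i

theorem coef_self (ω : ι → β × Bool) (j : ι) : coef ω j j = 1 := by
  simp [coef, sg_sq]

theorem abs_coef_le (ω : ι → β × Bool) (j i : ι) : |coef ω j i| ≤ 1 := by
  unfold coef
  split_ifs
  · rw [abs_mul, abs_sg, abs_sg]; norm_num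
  · simp

theorem sum_card_coll (b : β) :
    ∑ a : β × Bool, (if a.1 = b then (1 : ℝ) else 0) = 2 := by
  rw [Fintype.sum_prod_type]
  have : ∀ x : β, ∑ _y : Bool, (if x = b then (1 : ℝ) else 0) = if x = b then 2 else 0 := by
    intro x
    by_cases h : x = b
    · simp [h]
    · simp [h]
  simp only [this]
  simp

theorem sum_sg_coll (b : β) :
    ∑ a : β × Bool, (if a.1 = b then sg a.2 else 0) = 0 := by
  rw [Fintype.sum_prod_type]
  have : ∀ x : β, ∑ y : Bool, (if x = b then sg y else 0) = 0 := by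
    intro x
    by_cases h : x = b
    · simp [h, sg]
    · simp [h]
  simp only [this]
  simp

theorem sum_coll [Nonempty β] {i j : ι} (hij : i ≠ j) :
    ∑ ω : ι → β × Bool, (if (ω i).1 = (ω j).1 then (1 : ℝ) else 0)
      = (Fintype.card (ι → β × Bool) : ℝ) / Fintype.card β := by
  have h := sum_update i (fun ω : ι → β × Bool => if (ω i).1 = (ω j).1 then (1 : ℝ) else 0)
  have h2 : ∀ ω : ι → β × Bool, ∑ a : β × Bool,
      (if (Function.update ω i a i).1 = (Function.update ω i a j).1 then (1 : ℝ) else 0) = 2 := by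
    intro ω
    simp only [Function.update_self, Function.update_of_ne hij.symm]
    exact sum_card_coll _
  simp only [h2] at h
  have hβ : (0 : ℝ) < Fintype.card β := by
    have := Fintype.card_pos (α := β)
    exact_mod_cast this
  have hcard : (Fintype.card (β × Bool) : ℝ) = Fintype.card β * 2 := by
    simp
  rw [hcard, Finset.sum_const, Finset.card_univ, nsmul_eq_mul] at h
  rw [eq_div_iff hβ.ne']
  linarith

theorem coef_sq (ω : ι → β × Bool) (j i : ι) :
    coef ω j i * coef ω j i = if (ω i).1 = (ω j).1 then (1 : ℝ) else 0 := by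
  unfold coef
  split_ifs
  · calc sg (ω i).2 * sg (ω j).2 * (sg (ω i).2 * sg (ω j).2)
        = (sg (ω i).2 * sg (ω i).2) * (sg (ω j).2 * sg (ω j).2) := by ring
      _ = 1 := by rw [sg_sq, sg_sq]; norm_num
  · simp

theorem sum_cross [Nonempty β] {i i' j : ι} (hij : i ≠ j) (hii : i ≠ i') :
    ∑ ω : ι → β × Bool, coef ω j i * coef ω j i' = 0 := by
  have h := sum_update i (fun ω : ι → β × Bool => coef ω j i * coef ω j i')
  have h2 : ∀ ω : ι → β × Bool, ∑ a : β × Bool,
      coef (Function.update ω i a) j i * coef (Function.update ω i a) j i' = 0 := by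
    intro ω
    have h3 : ∀ a : β × Bool,
        coef (Function.update ω i a) j i * coef (Function.update ω i a) j i' =
          (sg (ω j).2 * coef ω j i') * (if a.1 = (ω j).1 then sg a.2 else 0) := by
      intro a
      unfold coef
      simp only [Function.update_self, Function.update_of_ne hij.symm,
        Function.update_of_ne hii.symm]
      split_ifs <;> ring
    simp only [h3]
    rw [← Finset.mul_sum, sum_sg_coll, mul_zero]
  simp only [h2] at h
  rw [Finset.sum_const_zero] at h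
  have hA : (Fintype.card (β × Bool) : ℝ) ≠ 0 := by
    have := Fintype.card_pos (α := β × Bool)
    exact_mod_cast this.ne'
  rcases mul_eq_zero.1 h.symm with h | h
  · exact absurd h hA
  · exact h

theorem second_moment [Nonempty β] (x : ι → ℝ) (j : ι) (t : Finset ι) (hj : j ∉ t) :
    ∑ ω : ι → β × Bool, (∑ i ∈ t, coef ω j i * x i) ^ 2
      = (Fintype.card (ι → β × Bool) : ℝ) / Fintype.card β * ∑ i ∈ t, (x i) ^ 2 := by
  have h1 : ∀ ω : ι → β × Bool, (∑ i ∈ t, coef ω j i * x i) ^ 2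
      = ∑ i ∈ t, ∑ i' ∈ t, (x i * x i') * (coef ω j i * coef ω j i') := by
    intro ω
    rw [sq, Finset.sum_mul_sum]
    refine Finset.sum_congr rfl fun i _ => Finset.sum_congr rfl fun i' _ => ?_
    ring
  simp only [h1]
  rw [Finset.sum_comm, Finset.mul_sum]
  refine Finset.sum_congr rfl fun i hi => ?_
  rw [Finset.sum_comm]
  have hne : i ≠ j := fun h => hj (h ▸ hi)
  rw [Finset.sum_eq_single_of_mem i hi]
  · rw [← Finset.mul_sum]
    simp only [coef_sq]
    rw [sum_coll hne]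
    ring
  · intro i' _ hne'
    rw [← Finset.mul_sum, sum_cross hne hne'.symm, mul_zero]

/-- The estimate of `x j` is off by more than `θ`. -/
def Bad (θ : ℝ) (x : ι → ℝ) (j : ι) (ω : ι → β × Bool) : Prop := θ < |est ω x j - x j|

open Classical in
theorem card_bad [Nonempty β] {θ : ℝ} (hθ : 0 < θ) (x : ι → ℝ) (j : ι) (k : ℕ)
    (hH : ((Finset.univ.filter fun i => θ < |x i|).card : ℝ) ≤ k)
    (hS : ∑ i ∈ Finset.univ.filter (fun i => ¬ θ < |x i|), (x i) ^ 2 ≤ k * θ ^ 2) :
    ∑ ω : ι → β × Bool, (if Bad θ x j ω then (1 : ℝ) else 0) ≤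
      (Fintype.card (ι → β × Bool) : ℝ) * (2 * k / Fintype.card β) := by
  set H := Finset.univ.filter fun i => θ < |x i| with hHdef
  set H' := Finset.univ.filter fun i => ¬ θ < |x i| with hHdef'
  have hβ : (0 : ℝ) < Fintype.card β := by
    have := Fintype.card_pos (α := β)
    exact_mod_cast this
  have hθ2 : 0 < θ ^ 2 := by positivity
  have hpt : ∀ ω : ι → β × Bool, (if Bad θ x j ω then (1 : ℝ) else 0) ≤
      (∑ i ∈ H.erase j, if (ω i).1 = (ω j).1 then (1 : ℝ) else 0)
        + (∑ i ∈ H'.erase j, coef ω j i * x i) ^ 2 / θ ^ 2 := by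
    intro ω
    have hnn1 : 0 ≤ ∑ i ∈ H.erase j, if (ω i).1 = (ω j).1 then (1 : ℝ) else 0 :=
      Finset.sum_nonneg fun i _ => by split_ifs <;> norm_num
    have hnn2 : 0 ≤ (∑ i ∈ H'.erase j, coef ω j i * x i) ^ 2 / θ ^ 2 := by positivity
    by_cases hb : Bad θ x j ω
    · rw [if_pos hb]
      by_cases hcoll : ∃ i ∈ H.erase j, (ω i).1 = (ω j).1
      · obtain ⟨i, hi, hc⟩ := hcoll
        have : (1 : ℝ) ≤ ∑ i ∈ H.erase j, if (ω i).1 = (ω j).1 then (1 : ℝ) else 0 := by
          have := Finset.single_le_sum (f := fun i => if (ω i).1 = (ω j).1 then (1 : ℝ) else 0)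
            (s := H.erase j) (fun i _ => by split_ifs <;> norm_num) hi
          simpa [hc] using this
        linarith
      · push Not at hcoll
        have hz : est ω x j - x j = ∑ i ∈ H'.erase j, coef ω j i * x i := by
          have h1 : est ω x j = coef ω j j * x j + ∑ i ∈ Finset.univ.erase j, coef ω j i * x i := by
            unfold est
            rw [← Finset.add_sum_erase _ _ (Finset.mem_univ j)]
          have h2 : ∑ i ∈ Finset.univ.erase j, coef ω j i * x i
              = ∑ i ∈ H.erase j, coef ω j i * x i + ∑ i ∈ H'.erase j, coef ω j i * x i := by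
            rw [← Finset.sum_filter_add_sum_filter_not (Finset.univ.erase j)
              (fun i => θ < |x i|)]
            congr 1
            · apply Finset.sum_congr _ fun _ _ => rfl
              ext i
              simp [hHdef, and_comm]
            · apply Finset.sum_congr _ fun _ _ => rfl
              ext i
              simp [hHdef', and_comm]
          have h3 : ∑ i ∈ H.erase j, coef ω j i * x i = 0 := by
            apply Finset.sum_eq_zero
            intro i hi
            rw [coef, if_neg (hcoll i hi), zero_mul]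
          rw [h1, h2, h3, coef_self]
          ring
        have h4 : θ < |∑ i ∈ H'.erase j, coef ω j i * x i| := by
          rw [← hz]; exact hb
        have h5 : 1 ≤ (∑ i ∈ H'.erase j, coef ω j i * x i) ^ 2 / θ ^ 2 := by
          rw [le_div_iff₀ hθ2, one_mul, ← sq_abs (∑ i ∈ H'.erase j, coef ω j i * x i)]
          exact pow_le_pow_left₀ hθ.le h4.le 2
        linarith
    · rw [if_neg hb]
      linarith
  have hC : (0 : ℝ) ≤ (Fintype.card (ι → β × Bool) : ℝ) / Fintype.card β := by positivity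
  calc ∑ ω : ι → β × Bool, (if Bad θ x j ω then (1 : ℝ) else 0)
      ≤ ∑ ω : ι → β × Bool, ((∑ i ∈ H.erase j, if (ω i).1 = (ω j).1 then (1 : ℝ) else 0)
        + (∑ i ∈ H'.erase j, coef ω j i * x i) ^ 2 / θ ^ 2) :=
        Finset.sum_le_sum fun ω _ => hpt ω
    _ = (∑ i ∈ H.erase j, ∑ ω : ι → β × Bool, if (ω i).1 = (ω j).1 then (1 : ℝ) else 0)
        + (∑ ω : ι → β × Bool, (∑ i ∈ H'.erase j, coef ω j i * x i) ^ 2) / θ ^ 2 := by
        rw [Finset.sum_add_distrib, Finset.sum_comm, Finset.sum_div]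
    _ = (∑ i ∈ H.erase j, (Fintype.card (ι → β × Bool) : ℝ) / Fintype.card β)
        + ((Fintype.card (ι → β × Bool) : ℝ) / Fintype.card β * ∑ i ∈ H'.erase j, (x i) ^ 2)
            / θ ^ 2 := by
        congr 1
        · refine Finset.sum_congr rfl fun i hi => sum_coll (Finset.ne_of_mem_erase hi)
        · rw [second_moment x j _ (Finset.notMem_erase j H')]
    _ ≤ k * ((Fintype.card (ι → β × Bool) : ℝ) / Fintype.card β)
        + ((Fintype.card (ι → β × Bool) : ℝ) / Fintype.card β * (k * θ ^ 2)) / θ ^ 2 := by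
        apply add_le_add
        · rw [Finset.sum_const, nsmul_eq_mul]
          apply mul_le_mul_of_nonneg_right _ hC
          refine le_trans ?_ hH
          exact_mod_cast Finset.card_le_card (Finset.erase_subset _ _)
        · apply div_le_div_of_nonneg_right _ hθ2.le
          apply mul_le_mul_of_nonneg_left _ hC
          refine le_trans ?_ hS
          apply Finset.sum_le_sum_of_subset_of_nonneg (Finset.erase_subset _ _)
          intro i _ _
          exact sq_nonneg _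
    _ = (Fintype.card (ι → β × Bool) : ℝ) * (2 * k / Fintype.card β) := by
        field_simp
        ring

end Hash

section Amplify

open Classical in
/-- Amplification: if an event has probability at most `1/16`, then among `2 m` independent
repetitions at least `m` bad ones occur with probability at most `4^{-m}`. -/
theorem amplify {Ω : Type} [Fintype Ω] (bad : Ω → Prop) (m : ℕ)
    (h : ∑ ω : Ω, (if bad ω then (1 : ℝ) else 0) ≤ (Fintype.card Ω : ℝ) * (1 / 16)) :
    (∑ ω : Fin (2 * m) → Ω,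
      (if m ≤ (Finset.univ.filter fun t => bad (ω t)).card then (1 : ℝ) else 0)) * 4 ^ m ≤
      (Fintype.card (Fin (2 * m) → Ω) : ℝ) := by
  have hg : ∑ ω : Ω, (if bad ω then (16 : ℝ) else 1) ≤ 2 * Fintype.card Ω := by
    have h1 : ∀ ω : Ω, (if bad ω then (16 : ℝ) else 1) = 1 + 15 * (if bad ω then (1 : ℝ) else 0) := by
      intro ω; split_ifs <;> norm_num
    simp only [h1]
    rw [Finset.sum_add_distrib, ← Finset.mul_sum]
    simp only [Finset.sum_const, Finset.card_univ, nsmul_eq_mul, mul_one]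
    have : (0 : ℝ) ≤ Fintype.card Ω := Nat.cast_nonneg _
    linarith
  have hprod : ∑ ω : Fin (2 * m) → Ω, ∏ t, (if bad (ω t) then (16 : ℝ) else 1)
      = (∑ ω : Ω, (if bad ω then (16 : ℝ) else 1)) ^ (2 * m) := by
    rw [Fintype.sum_pow]
  have hpt : ∀ ω : Fin (2 * m) → Ω,
      (if m ≤ (Finset.univ.filter fun t => bad (ω t)).card then (1 : ℝ) else 0) * 16 ^ m ≤
        ∏ t, (if bad (ω t) then (16 : ℝ) else 1) := by
    intro ω
    have h1 : ∏ t, (if bad (ω t) then (16 : ℝ) else 1)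
        = 16 ^ (Finset.univ.filter fun t => bad (ω t)).card := by
      rw [Finset.prod_ite]
      simp
    rw [h1]
    split_ifs with hm
    · rw [one_mul]
      exact pow_le_pow_right₀ (by norm_num) hm
    · rw [zero_mul]
      positivity
  have hsum : (∑ ω : Fin (2 * m) → Ω,
      (if m ≤ (Finset.univ.filter fun t => bad (ω t)).card then (1 : ℝ) else 0)) * 16 ^ m ≤
      (2 * Fintype.card Ω : ℝ) ^ (2 * m) := by
    rw [Finset.sum_mul]
    refine (Finset.sum_le_sum fun ω _ => hpt ω).trans ?_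
    rw [hprod]
    apply pow_le_pow_left₀ _ hg
    exact Finset.sum_nonneg fun ω _ => by split_ifs <;> norm_num
  have hcard : (Fintype.card (Fin (2 * m) → Ω) : ℝ) = (Fintype.card Ω : ℝ) ^ (2 * m) := by
    rw [Fintype.card_fun]
    simp
  rw [hcard]
  have h16 : (16 : ℝ) ^ m = 4 ^ m * 4 ^ m := by
    rw [← mul_pow]; norm_num
  have h4 : (2 * Fintype.card Ω : ℝ) ^ (2 * m) = 4 ^ m * (Fintype.card Ω : ℝ) ^ (2 * m) := by
    rw [mul_pow, pow_mul]; norm_num
  rw [h16, h4] at hsum
  have h4pos : (0 : ℝ) < 4 ^ m := by positivity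
  have : 4 ^ m * ((∑ ω : Fin (2 * m) → Ω,
      (if m ≤ (Finset.univ.filter fun t => bad (ω t)).card then (1 : ℝ) else 0)) * 4 ^ m) ≤
      4 ^ m * (Fintype.card Ω : ℝ) ^ (2 * m) := by
    calc _ = (∑ ω : Fin (2 * m) → Ω,
      (if m ≤ (Finset.univ.filter fun t => bad (ω t)).card then (1 : ℝ) else 0))
        * (4 ^ m * 4 ^ m) := by ring
      _ ≤ _ := hsum
  exact le_of_mul_le_mul_left this h4pos

end Amplify

end Pool.Agent.Lib.MP_0852b5_an
end

section

section

/-!
# MP_0852b5_an: a median of `2 m` numbers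
-/

namespace Pool.Agent.Lib.MP_0852b5_an

/-- The `m`-th largest of `2 m` numbers, as a maximum of minima. -/
noncomputable def med (m : ℕ) (z : Fin (2 * m) → ℝ) : ℝ :=
  ⨆ A : {A : Finset (Fin (2 * m)) // A.card = m}, ⨅ t : {t : Fin (2 * m) // t ∈ A.1}, z t

open Classical in
theorem abs_med_sub_le {m : ℕ} (hm : 1 ≤ m) (z : Fin (2 * m) → ℝ) (a θ : ℝ)
    (h : (Finset.univ.filter fun t => θ < |z t - a|).card < m) : |med m z - a| ≤ θ := by
  set bad := Finset.univ.filter fun t => θ < |z t - a| with hbad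
  have hgood : m ≤ (Finset.univ.filter fun t => ¬ θ < |z t - a|).card := by
    have h1 := Finset.card_filter_add_card_filter_not (s := (Finset.univ : Finset (Fin (2 * m))))
      (fun t => θ < |z t - a|)
    rw [Finset.card_univ, Fintype.card_fin] at h1
    rw [hbad] at h
    omega
  obtain ⟨A, hA, hAc⟩ := Finset.exists_subset_card_eq hgood
  have hbdd : BddAbove (Set.range fun A : {A : Finset (Fin (2 * m)) // A.card = m} =>
      ⨅ t : {t : Fin (2 * m) // t ∈ A.1}, z t) := (Set.finite_range _).bddAbove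
  have hgt : ∀ t, ¬ θ < |z t - a| → a - θ ≤ z t ∧ z t ≤ a + θ := by
    intro t ht
    have := abs_le.1 (not_lt.1 ht)
    constructor <;> linarith [this.1, this.2]
  rw [abs_le]
  constructor
  · have h1 : a - θ ≤ ⨅ t : {t : Fin (2 * m) // t ∈ A}, z t := by
      have : Nonempty {t : Fin (2 * m) // t ∈ A} := by
        have : A.Nonempty := Finset.card_pos.1 (by omega)
        exact this.to_subtype
      apply le_ciInf
      intro t
      have ht := hA t.2
      rw [Finset.mem_filter] at ht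
      exact (hgt t ht.2).1
    have h2 : (⨅ t : {t : Fin (2 * m) // t ∈ A}, z t) ≤ med m z :=
      le_ciSup hbdd (⟨A, hAc⟩ : {A : Finset (Fin (2 * m)) // A.card = m})
    linarith
  · have : Nonempty {A : Finset (Fin (2 * m)) // A.card = m} := ⟨⟨A, hAc⟩⟩
    have h1 : med m z ≤ a + θ := by
      apply ciSup_le
      intro B
      obtain ⟨t, htB, ht⟩ : ∃ t ∈ B.1, ¬ θ < |z t - a| := by
        by_contra hcon
        push Not at hcon
        have hsub : B.1 ⊆ bad := by
          intro t ht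
          rw [hbad, Finset.mem_filter]
          exact ⟨Finset.mem_univ _, hcon t ht⟩
        have := Finset.card_le_card hsub
        rw [B.2] at this
        omega
      have h2 : (⨅ t : {t : Fin (2 * m) // t ∈ B.1}, z t) ≤ z t :=
        ciInf_le (Set.finite_range _).bddBelow (⟨t, htB⟩ : {t : Fin (2 * m) // t ∈ B.1})
      exact h2.trans (hgt t ht).2
    linarith

theorem abs_med_le {m : ℕ} (hm : 1 ≤ m) (z : Fin (2 * m) → ℝ) (R : ℝ)
    (h : ∀ t, |z t| ≤ R) : |med m z| ≤ R := by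
  classical
  have := abs_med_sub_le hm z 0 R (by
    have h0 : (Finset.univ.filter fun t => R < |z t - 0|) = ∅ := by
      rw [Finset.filter_eq_empty_iff]
      intro t _
      rw [sub_zero]
      exact not_lt.2 (h t)
    rw [h0, Finset.card_empty]
    omega)
  simpa using this

theorem measurable_med (m : ℕ) : Measurable (med m) := by
  unfold med
  refine Measurable.iSup fun A => Measurable.iInf fun t => ?_
  exact measurable_pi_apply _

end Pool.Agent.Lib.MP_0852b5_an
end

section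

/-!
# MP_0852b5_an: the weighted `ℓ_p` ball in `ℓ_∞`
-/

open scoped ENNReal NNReal InnerProductSpace BoundedContinuousFunction
open MeasureTheory

namespace Pool.Agent.Lib.MP_0852b5_an

/-- The unit ball of a weighted `ℓ_p` norm, as a subset of `ℓ_∞(ℕ)`. -/
def ball (p κ : ℝ) : Set (ℕ →ᵇ ℝ) :=
  {x | ∀ t : Finset ℕ, ∑ i ∈ t, (((i : ℝ) + 1) ^ κ * |x i|) ^ p ≤ 1}

theorem ball_convex {p κ : ℝ} (hp : 1 ≤ p) : Convex ℝ (ball p κ) := by
  intro x hx y hy a b ha hb hab t
  have hkey : ∀ i ∈ t, (((i : ℝ) + 1) ^ κ * |(a • x + b • y) i|) ^ p ≤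
      a * (((i : ℝ) + 1) ^ κ * |x i|) ^ p + b * (((i : ℝ) + 1) ^ κ * |y i|) ^ p := by
    intro i _
    have hw : (0 : ℝ) ≤ ((i : ℝ) + 1) ^ κ := by positivity
    have h1 : ((i : ℝ) + 1) ^ κ * |(a • x + b • y) i| ≤
        a * (((i : ℝ) + 1) ^ κ * |x i|) + b * (((i : ℝ) + 1) ^ κ * |y i|) := by
      have : |(a • x + b • y) i| ≤ a * |x i| + b * |y i| := by
        have h := abs_add_le (a * x i) (b * y i)
        rw [abs_mul, abs_mul, abs_of_nonneg ha, abs_of_nonneg hb] at h
        simpa using h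
      calc ((i : ℝ) + 1) ^ κ * |(a • x + b • y) i|
          ≤ ((i : ℝ) + 1) ^ κ * (a * |x i| + b * |y i|) := by gcongr
        _ = _ := by ring
    have h2 : (((i : ℝ) + 1) ^ κ * |(a • x + b • y) i|) ^ p ≤
        (a * (((i : ℝ) + 1) ^ κ * |x i|) + b * (((i : ℝ) + 1) ^ κ * |y i|)) ^ p := by
      apply Real.rpow_le_rpow _ h1 (by linarith)
      positivity
    refine h2.trans ?_
    have hc := (convexOn_rpow hp).2
      (x := ((i : ℝ) + 1) ^ κ * |x i|) (y := ((i : ℝ) + 1) ^ κ * |y i|)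
      (by simp only [Set.mem_Ici]; positivity) (by simp only [Set.mem_Ici]; positivity) ha hb hab
    simpa using hc
  calc ∑ i ∈ t, (((i : ℝ) + 1) ^ κ * |(a • x + b • y) i|) ^ p
      ≤ ∑ i ∈ t, (a * (((i : ℝ) + 1) ^ κ * |x i|) ^ p
          + b * (((i : ℝ) + 1) ^ κ * |y i|) ^ p) := Finset.sum_le_sum hkey
    _ = a * (∑ i ∈ t, (((i : ℝ) + 1) ^ κ * |x i|) ^ p)
          + b * (∑ i ∈ t, (((i : ℝ) + 1) ^ κ * |y i|) ^ p) := by
        rw [Finset.sum_add_distrib, Finset.mul_sum, Finset.mul_sum]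
    _ ≤ a * 1 + b * 1 := by
        gcongr
        · exact hx t
        · exact hy t
    _ = 1 := by linarith

theorem ball_symm {p κ : ℝ} : ∀ f ∈ ball p κ, -f ∈ ball p κ := by
  intro f hf t
  have := hf t
  simpa using this

theorem ball_abs_le {p κ : ℝ} (hp : 0 < p) {x : ℕ →ᵇ ℝ} (hx : x ∈ ball p κ) (i : ℕ) :
    |x i| ≤ ((i : ℝ) + 1) ^ (-κ) := by
  have h := hx {i}
  rw [Finset.sum_singleton] at h
  have hw : (0 : ℝ) < ((i : ℝ) + 1) ^ κ := by positivity
  have h1 : ((i : ℝ) + 1) ^ κ * |x i| ≤ 1 := by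
    by_contra hcon
    push Not at hcon
    have := Real.one_lt_rpow hcon hp
    linarith
  rw [Real.rpow_neg (by positivity)]
  rw [← one_div, le_div_iff₀ hw]
  linarith

theorem ball_abs_le_one {p κ : ℝ} (hp : 0 < p) (hκ : 0 ≤ κ) {x : ℕ →ᵇ ℝ}
    (hx : x ∈ ball p κ) (i : ℕ) : |x i| ≤ 1 := by
  refine (ball_abs_le hp hx i).trans ?_
  apply Real.rpow_le_one_of_one_le_of_nonpos
  · have : (0 : ℝ) ≤ i := Nat.cast_nonneg i
    linarith
  · linarith

theorem ball_tail {p κ : ℝ} (hp : 0 < p) (hκ : 0 ≤ κ) {x : ℕ →ᵇ ℝ}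
    (hx : x ∈ ball p κ) {D : ℕ} (hD : 0 < D) {i : ℕ} (hi : D ≤ i) : |x i| ≤ (D : ℝ) ^ (-κ) := by
  refine (ball_abs_le hp hx i).trans ?_
  apply Real.rpow_le_rpow_of_nonpos
  · exact_mod_cast hD
  · have : (D : ℝ) ≤ i := by exact_mod_cast hi
    linarith
  · linarith

theorem ball_sum_le {p κ : ℝ} (hp : 0 < p) (hκ : 0 ≤ κ) {x : ℕ →ᵇ ℝ}
    (hx : x ∈ ball p κ) (t : Finset ℕ) : ∑ i ∈ t, |x i| ^ p ≤ 1 := by
  refine le_trans ?_ (hx t)
  apply Finset.sum_le_sum
  intro i _
  apply Real.rpow_le_rpow (abs_nonneg _) _ hp.le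
  have h1 : (1 : ℝ) ≤ ((i : ℝ) + 1) ^ κ := by
    apply Real.one_le_rpow _ hκ
    have : (0 : ℝ) ≤ i := Nat.cast_nonneg i
    linarith
  nlinarith [abs_nonneg (x i)]

/-- Extension by zero `ℝ^D → ℓ_∞`. -/
noncomputable def emb (D : ℕ) : (Fin D → ℝ) →ₗ[ℝ] (ℕ →ᵇ ℝ) where
  toFun v := BoundedContinuousFunction.ofNormedAddCommGroupDiscrete
    (fun j => if h : j < D then v ⟨j, h⟩ else 0) ‖v‖ (by
      intro j
      by_cases h : j < D
      · simp only [h, dif_pos]
        exact norm_le_pi_norm v _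
      · simp [h])
  map_add' v w := by
    ext j
    by_cases h : j < D <;> simp [h]
  map_smul' c v := by
    ext j
    by_cases h : j < D <;> simp [h]

theorem emb_apply_lt {D : ℕ} (v : Fin D → ℝ) (j : Fin D) : emb D v (j : ℕ) = v j := by
  simp [emb]

theorem emb_apply_ge {D : ℕ} (v : Fin D → ℝ) {j : ℕ} (hj : D ≤ j) : emb D v j = 0 := by
  simp [emb, Nat.not_lt.2 hj]

theorem emb_mem_ball {p κ : ℝ} (hp : 0 < p) (hκ : 0 ≤ κ) {D : ℕ} (v : Fin D → ℝ)
    (hv : ∑ j, ((D : ℝ) ^ κ * |v j|) ^ p ≤ 1) : emb D v ∈ ball p κ := by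
  intro t
  have hsub : ∑ i ∈ t, (((i : ℝ) + 1) ^ κ * |emb D v i|) ^ p
      ≤ ∑ i ∈ Finset.range D, (((i : ℝ) + 1) ^ κ * |emb D v i|) ^ p := by
    have h1 : ∑ i ∈ t, (((i : ℝ) + 1) ^ κ * |emb D v i|) ^ p
        = ∑ i ∈ t.filter (· < D), (((i : ℝ) + 1) ^ κ * |emb D v i|) ^ p := by
      rw [Finset.sum_filter_of_ne]
      intro i _ hne
      by_contra hcon
      apply hne
      rw [emb_apply_ge v (Nat.not_lt.1 hcon)]
      simp [Real.zero_rpow hp.ne']
    rw [h1]
    apply Finset.sum_le_sum_of_subset_of_nonneg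
    · intro i hi
      simp only [Finset.mem_filter] at hi
      exact Finset.mem_range.2 hi.2
    · intro i _ _
      positivity
  refine hsub.trans ?_
  rw [Finset.sum_range]
  refine le_trans ?_ hv
  apply Finset.sum_le_sum
  intro j _
  rw [emb_apply_lt]
  apply Real.rpow_le_rpow (by positivity) _ hp.le
  have : ((j : ℕ) : ℝ) + 1 ≤ D := by exact_mod_cast j.2
  gcongr

end Pool.Agent.Lib.MP_0852b5_an
end

section

/-!
# MP_0852b5_an: finite-dimensional core of the deterministic lower bound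

For any `n` linear functionals on `ℝ^D`, `2 n ≤ D`, there is a vector in their common kernel
which is close (in `ℓ_2`) to a unit vector: `v i ≥ 1/2` and `∑_{j ≠ i} v_j² ≤ n / D`.
-/

open scoped ENNReal NNReal InnerProductSpace
open MeasureTheory

namespace Pool.Agent.Lib.MP_0852b5_an

theorem finrank_ker_ge {D n : ℕ} (T : EuclideanSpace ℝ (Fin D) →ₗ[ℝ] (Fin n → ℝ)) :
    (D : ℝ) - n ≤ (Module.finrank ℝ (LinearMap.ker T) : ℝ) := by
  have h1 := LinearMap.finrank_range_add_finrank_ker T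
  have h2 : Module.finrank ℝ (LinearMap.range T) ≤ n := by
    have := Submodule.finrank_le (LinearMap.range T)
    simpa using this
  have h3 : Module.finrank ℝ (EuclideanSpace ℝ (Fin D)) = D := by simp
  rw [h3] at h1
  have : (D : ℝ) = (Module.finrank ℝ (LinearMap.range T) : ℝ)
      + (Module.finrank ℝ (LinearMap.ker T) : ℝ) := by exact_mod_cast h1.symm
  have h4 : (Module.finrank ℝ (LinearMap.range T) : ℝ) ≤ n := by exact_mod_cast h2
  linarith

theorem sum_inner_proj {D : ℕ} (K : Submodule ℝ (EuclideanSpace ℝ (Fin D))) :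
    ∑ i, ⟪EuclideanSpace.basisFun (Fin D) ℝ i,
      K.starProjection (EuclideanSpace.basisFun (Fin D) ℝ i)⟫_ℝ
      = (Module.finrank ℝ K : ℝ) := by
  have h := LinearMap.trace_eq_sum_inner (K.starProjection : EuclideanSpace ℝ (Fin D) →ₗ[ℝ] _)
    (EuclideanSpace.basisFun (Fin D) ℝ)
  have h2 : LinearMap.IsProj K (K.starProjection : EuclideanSpace ℝ (Fin D) →ₗ[ℝ] _) := by
    constructor
    · intro x; exact K.starProjection_apply_mem x
    · intro x hx; exact Submodule.starProjection_eq_self_iff.2 hx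
  rw [h2.trace] at h
  exact h.symm

theorem exists_almost_unit {D n : ℕ} (hD : 0 < D) (hn : 2 * n ≤ D)
    (T : EuclideanSpace ℝ (Fin D) →ₗ[ℝ] (Fin n → ℝ)) :
    ∃ v : EuclideanSpace ℝ (Fin D), T v = 0 ∧ ∃ i : Fin D, 1 / 2 ≤ v i ∧ v i ≤ 1 ∧
      ∑ j ∈ Finset.univ.erase i, (v j) ^ 2 ≤ (n : ℝ) / D := by
  set K := LinearMap.ker T with hK
  have hDpos : (0 : ℝ) < D := by exact_mod_cast hD
  have hsum := sum_inner_proj K
  have hdim := finrank_ker_ge T
  rw [← hK] at hdim
  -- some diagonal entry is large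
  obtain ⟨i, -, hi⟩ : ∃ i ∈ (Finset.univ : Finset (Fin D)), 1 - (n : ℝ) / D ≤
      ⟪EuclideanSpace.basisFun (Fin D) ℝ i,
        K.starProjection (EuclideanSpace.basisFun (Fin D) ℝ i)⟫_ℝ := by
    apply Finset.exists_le_of_sum_le (s := (Finset.univ : Finset (Fin D)))
    · exact ⟨⟨0, hD⟩, Finset.mem_univ _⟩
    · rw [hsum]
      simp only [Finset.sum_const, Finset.card_univ, Fintype.card_fin, nsmul_eq_mul]
      have : (D : ℝ) * (1 - (n : ℝ) / D) = D - n := by field_simp
      rw [this]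
      exact hdim
  set e := EuclideanSpace.basisFun (Fin D) ℝ i with he
  set v := K.starProjection e with hv
  have hvK : v ∈ K := K.starProjection_apply_mem e
  have hTv : T v = 0 := by
    have := hvK
    rw [hK, LinearMap.mem_ker] at this
    exact this
  have hvi : v i = ⟪e, v⟫_ℝ := by
    rw [he, EuclideanSpace.basisFun_apply]
    simp [EuclideanSpace.inner_single_left]
  have hnorm : ⟪e, v⟫_ℝ = ‖v‖ ^ 2 := by
    have h1 : ⟪e - v, v⟫_ℝ = 0 := K.starProjection_inner_eq_zero e v hvK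
    rw [inner_sub_left, real_inner_self_eq_norm_sq] at h1
    linarith
  have hsq : ‖v‖ ^ 2 = ∑ j, (v j) ^ 2 := by
    rw [EuclideanSpace.norm_sq_eq]
    simp
  have hsplit : ∑ j, (v j) ^ 2 = (v i) ^ 2 + ∑ j ∈ Finset.univ.erase i, (v j) ^ 2 := by
    rw [← Finset.add_sum_erase _ _ (Finset.mem_univ i)]
  have hnn : 0 ≤ ∑ j ∈ Finset.univ.erase i, (v j) ^ 2 :=
    Finset.sum_nonneg fun j _ => sq_nonneg _
  have hviS : v i = (v i) ^ 2 + ∑ j ∈ Finset.univ.erase i, (v j) ^ 2 := by
    rw [← hsplit, ← hsq, ← hnorm, ← hvi]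
  have hle1 : v i ≤ 1 := by nlinarith
  have hge : 1 - (n : ℝ) / D ≤ v i := by rw [hvi]; exact hi
  have hnD : (n : ℝ) / D ≤ 1 / 2 := by
    rw [div_le_iff₀ hDpos]
    have : (2 : ℝ) * n ≤ D := by exact_mod_cast hn
    linarith
  refine ⟨v, hTv, i, by linarith, hle1, ?_⟩
  have h0 : 0 ≤ v i := by linarith
  nlinarith

end Pool.Agent.Lib.MP_0852b5_an
end

section

/-!
# MP_0852b5_an: the deterministic lower bound

`e_n^det-non(id, ball) ≥ (1/4) n^{-1/s}` for `p = 1 + 1/s`, `κ = 1/s²`.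
-/

open scoped ENNReal NNReal InnerProductSpace BoundedContinuousFunction
open MeasureTheory

namespace Pool.Agent.Lib.MP_0852b5_an

/-- The exponent `p = 1 + 1/s`. -/
noncomputable def pp (s : ℕ) : ℝ := 1 + 1 / (s : ℝ)

/-- The exponent `κ = 1/s²`. -/
noncomputable def kk (s : ℕ) : ℝ := 1 / (s : ℝ) ^ 2

theorem pp_pos (s : ℕ) : 0 < pp s := by unfold pp; positivity

theorem one_le_pp (s : ℕ) : 1 ≤ pp s := by
  unfold pp
  have : 0 ≤ 1 / (s : ℝ) := by positivity
  linarith

theorem kk_nonneg (s : ℕ) : 0 ≤ kk s := by unfold kk; positivity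

/-- If a symmetric class contains an element `x` with zero information, the error is at least
`‖S x‖`. -/
theorem le_detErr {X Y : Type} [NormedAddCommGroup X] [NormedSpace ℝ X]
    [NormedAddCommGroup Y] [NormedSpace ℝ Y] (S : X →L[ℝ] Y) (F : Set X)
    (hF : ∀ f ∈ F, -f ∈ F) {n : ℕ} (L : Fin n → (X →L[ℝ] ℝ)) (φ : (Fin n → ℝ) → Y)
    {x : X} (hx : x ∈ F) (hL : info L x = 0) : ‖S x‖ₑ ≤ detErr S F L φ := by
  have hL' : info L (-x) = 0 := by
    funext i
    have : L i x = 0 := congrFun hL i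
    simp [info, this]
  have h1 : ‖S x - φ 0‖ₑ ≤ detErr S F L φ := by
    have := le_iSup (fun f : F => ‖S f - φ (info L f)‖ₑ) ⟨x, hx⟩
    simpa [detErr, hL] using this
  have h2 : ‖S (-x) - φ 0‖ₑ ≤ detErr S F L φ := by
    have := le_iSup (fun f : F => ‖S f - φ (info L f)‖ₑ) ⟨-x, hF x hx⟩
    simpa [detErr, hL'] using this
  have h3 : ‖S x‖ ≤ max ‖S x - φ 0‖ ‖S (-x) - φ 0‖ := by
    have h4 : (2 : ℝ) * ‖S x‖ ≤ ‖S x - φ 0‖ + ‖S (-x) - φ 0‖ := by
      have : (S x - φ 0) - (S (-x) - φ 0) = (2 : ℝ) • S x := by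
        rw [map_neg, two_smul]; abel
      calc (2 : ℝ) * ‖S x‖ = ‖(2 : ℝ) • S x‖ := by rw [norm_smul]; norm_num
        _ = ‖(S x - φ 0) - (S (-x) - φ 0)‖ := by rw [this]
        _ ≤ _ := norm_sub_le _ _
    rcases le_total ‖S x - φ 0‖ ‖S (-x) - φ 0‖ with h | h
    · rw [max_eq_right h]; linarith
    · rw [max_eq_left h]; linarith
  rcases le_max_iff.1 h3 with h | h
  · exact (enorm_le_iff_norm_le.2 h).trans h1
  · exact (enorm_le_iff_norm_le.2 h).trans h2

theorem exponent_ineq {s n : ℕ} (hs : 2 ≤ s) (hn : 1 ≤ n) :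
    (((n ^ s : ℕ) : ℝ)) ^ (2 / pp s - 1) * ((n : ℝ) / ((n ^ s : ℕ) : ℝ)) ≤ 1 := by
  have hn0 : (0 : ℝ) < n := by exact_mod_cast hn
  have hn1 : (1 : ℝ) ≤ n := by exact_mod_cast hn
  have hs0 : (0 : ℝ) < s := by
    have : 0 < s := by omega
    exact_mod_cast this
  have hs1 : (1 : ℝ) ≤ s := by
    have : 1 ≤ s := by omega
    exact_mod_cast this
  have h1 : ((n ^ s : ℕ) : ℝ) = (n : ℝ) ^ (s : ℝ) := by
    push_cast
    rw [Real.rpow_natCast]
  rw [h1, ← Real.rpow_mul hn0.le]
  have h2 : (n : ℝ) / (n : ℝ) ^ (s : ℝ) = (n : ℝ) ^ (1 - (s : ℝ)) := by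
    rw [Real.rpow_sub hn0, Real.rpow_one]
  rw [h2, ← Real.rpow_add hn0]
  apply Real.rpow_le_one_of_one_le_of_nonpos hn1
  have h3 : (s : ℝ) * (2 / pp s - 1) + (1 - (s : ℝ)) = - (((s : ℝ) - 1) / (s + 1)) := by
    unfold pp
    field_simp
    ring
  rw [h3]
  have : 0 ≤ ((s : ℝ) - 1) / (s + 1) := by
    apply div_nonneg <;> linarith
  linarith

theorem det_lower {s n : ℕ} (hs : 2 ≤ s) (hn : 2 ≤ n) :
    ENNReal.ofReal (1 / 4 * (n : ℝ) ^ (-(1 / (s : ℝ)))) ≤
      eDet (ContinuousLinearMap.id ℝ (ℕ →ᵇ ℝ)) (ball (pp s) (kk s)) n := by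
  unfold eDet
  refine le_iInf fun L => le_iInf fun φ => ?_
  set D : ℕ := n ^ s with hD
  have hn0 : (0 : ℝ) < n := by
    have : 0 < n := by omega
    exact_mod_cast this
  have hs0 : (0 : ℝ) < s := by
    have : 0 < s := by omega
    exact_mod_cast this
  have hDpos : 0 < D := by rw [hD]; positivity
  have hDpos' : (0 : ℝ) < D := by exact_mod_cast hDpos
  have h2n : 2 * n ≤ D := by
    calc 2 * n ≤ n * n := Nat.mul_le_mul_right n hn
      _ = n ^ 2 := by ring
      _ ≤ n ^ s := Nat.pow_le_pow_right (by omega) hs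
  let T : EuclideanSpace ℝ (Fin D) →ₗ[ℝ] (Fin n → ℝ) :=
    LinearMap.pi (fun i => ((L i : (ℕ →ᵇ ℝ) →ₗ[ℝ] ℝ) ∘ₗ emb D ∘ₗ
      (WithLp.linearEquiv 2 ℝ (Fin D → ℝ)).toLinearMap))
  obtain ⟨v, hTv, i, hi1, hi2, hsum⟩ := exists_almost_unit hDpos h2n T
  have hp := pp_pos s
  have hp1 := one_le_pp s
  have hp2 : pp s ≤ 2 := by
    unfold pp
    have : 1 / (s : ℝ) ≤ 1 := by
      rw [div_le_one hs0]
      have : 1 ≤ s := by omega
      exact_mod_cast this
    linarith
  -- the `ℓ_p` norm of `v` away from `i`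
  have hHolder : ∑ j ∈ Finset.univ.erase i, |v j| ^ (pp s) ≤ 1 := by
    have hq : 1 ≤ 2 / pp s := by
      rw [le_div_iff₀ hp]; linarith
    have h := Real.rpow_sum_le_const_mul_sum_rpow (Finset.univ.erase i)
      (fun j => |v j| ^ (pp s)) hq
    have habs : ∀ j, |(|v j| ^ (pp s))| = |v j| ^ (pp s) := fun j =>
      abs_of_nonneg (by positivity)
    simp only [habs] at h
    have hpow : ∀ j, (|v j| ^ (pp s)) ^ (2 / pp s) = (v j) ^ 2 := by
      intro j
      rw [← Real.rpow_mul (abs_nonneg _)]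
      have : pp s * (2 / pp s) = 2 := by field_simp
      rw [this]
      rw [show (2 : ℝ) = ((2 : ℕ) : ℝ) by norm_num, Real.rpow_natCast, sq_abs]
    simp only [hpow] at h
    have hcard : ((Finset.univ.erase i : Finset (Fin D)).card : ℝ) ≤ D := by
      have : (Finset.univ.erase i : Finset (Fin D)).card ≤ (Finset.univ : Finset (Fin D)).card :=
        Finset.card_le_card (Finset.erase_subset _ _)
      have h' : (Finset.univ.erase i : Finset (Fin D)).card ≤ D := by simpa using this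
      exact_mod_cast h'
    have hle : (∑ j ∈ Finset.univ.erase i, |v j| ^ (pp s)) ^ (2 / pp s) ≤ 1 := by
      refine h.trans ?_
      refine le_trans ?_ (exponent_ineq hs (show 1 ≤ n by omega))
      rw [← hD]
      apply mul_le_mul _ hsum
      · exact Finset.sum_nonneg fun j _ => sq_nonneg _
      · positivity
      · exact Real.rpow_le_rpow (by positivity) hcard (by linarith)
    by_contra hcon
    push Not at hcon
    have := Real.one_lt_rpow hcon (show 0 < 2 / pp s by positivity)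
    linarith
  have hall : ∑ j, |v j| ^ (pp s) ≤ 2 := by
    rw [← Finset.add_sum_erase _ _ (Finset.mem_univ i)]
    have : |v i| ^ (pp s) ≤ 1 := by
      apply Real.rpow_le_one (abs_nonneg _) _ hp.le
      rw [abs_of_nonneg (by linarith)]
      exact hi2
    linarith
  set c : ℝ := 1 / 2 * (D : ℝ) ^ (-(kk s)) with hc
  have hcpos : 0 < c := by positivity
  set x : ℕ →ᵇ ℝ := emb D (fun j => c * v j) with hx
  have hxF : x ∈ ball (pp s) (kk s) := by
    apply emb_mem_ball hp (kk_nonneg s)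
    have h1 : ∀ j : Fin D, ((D : ℝ) ^ (kk s) * |c * v j|) ^ (pp s)
        = (1 / 2 : ℝ) ^ (pp s) * |v j| ^ (pp s) := by
      intro j
      rw [← Real.mul_rpow (by norm_num) (abs_nonneg _)]
      congr 1
      rw [abs_mul, abs_of_pos hcpos, hc, Real.rpow_neg hDpos'.le]
      have : (D : ℝ) ^ (kk s) ≠ 0 := by positivity
      field_simp
    simp only [h1]
    rw [← Finset.mul_sum]
    have h2 : (1 / 2 : ℝ) ^ (pp s) ≤ 1 / 2 := by
      have := Real.rpow_le_rpow_of_exponent_ge (x := (1 / 2 : ℝ)) (by norm_num) (by norm_num) hp1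
      simpa using this
    have h3 : 0 ≤ ∑ j, |v j| ^ (pp s) := Finset.sum_nonneg fun j _ => by positivity
    have h4 : (0 : ℝ) ≤ (1 / 2 : ℝ) ^ (pp s) := by positivity
    nlinarith
  have hinfo : info L x = 0 := by
    funext l
    have h1 : T v l = 0 := by rw [hTv]; rfl
    have h2 : T v l = L l (emb D (fun j => v j)) := rfl
    have h3 : x = c • emb D (fun j => v j) := by
      rw [hx, ← map_smul]
      rfl
    have h4 : L l x = 0 := by
      rw [h3, map_smul, ← h2, h1, smul_zero]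
    simpa [info] using h4
  have hmain := le_detErr (ContinuousLinearMap.id ℝ (ℕ →ᵇ ℝ)) (ball (pp s) (kk s))
    ball_symm L φ hxF hinfo
  refine le_trans ?_ hmain
  rw [ContinuousLinearMap.id_apply, ← ofReal_norm]
  apply ENNReal.ofReal_le_ofReal
  have h5 : |x (i : ℕ)| ≤ ‖x‖ := by
    have := x.norm_coe_le_norm (i : ℕ)
    simpa using this
  refine le_trans ?_ h5
  rw [hx, emb_apply_lt, abs_mul, abs_of_pos hcpos, abs_of_nonneg (by linarith : 0 ≤ v i)]
  have h6 : (D : ℝ) ^ (-(kk s)) = (n : ℝ) ^ (-(1 / (s : ℝ))) := by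
    rw [hD]
    push_cast
    rw [← Real.rpow_natCast, ← Real.rpow_mul hn0.le]
    congr 1
    unfold kk
    field_simp
  rw [hc, h6]
  have h7 : 0 < (n : ℝ) ^ (-(1 / (s : ℝ))) := by positivity
  nlinarith

/-- The rate of the deterministic minimal errors is at most `1/s`. -/
theorem det_rate_le {s : ℕ} (hs : 2 ≤ s) :
    rate (eDet (ContinuousLinearMap.id ℝ (ℕ →ᵇ ℝ)) (ball (pp s) (kk s))) ≤
      ENNReal.ofReal (1 / (s : ℝ)) := by
  unfold rate
  refine iSup_le ?_
  rintro ⟨α, hα, C, hC⟩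
  simp only
  rw [← ENNReal.ofReal_coe_nnreal]
  apply ENNReal.ofReal_le_ofReal
  by_contra hcon
  push Not at hcon
  -- `1/4 n^{-1/s} ≤ C n^{-α}` for all `n ≥ 2`
  have hkey : ∀ n : ℕ, 2 ≤ n → (n : ℝ) ^ ((α : ℝ) - 1 / (s : ℝ)) ≤ 4 * C := by
    intro n hn
    have hn0 : (0 : ℝ) < n := by
      have : 0 < n := by omega
      exact_mod_cast this
    have h1 := (det_lower hs hn).trans (hC n (by omega))
    have h2 : (C : ℝ≥0∞) * (n : ℝ≥0∞) ^ (-(α : ℝ)) = ENNReal.ofReal (C * (n : ℝ) ^ (-(α : ℝ))) := by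
      rw [ENNReal.ofReal_mul (by positivity), ENNReal.ofReal_coe_nnreal,
        ← ENNReal.ofReal_rpow_of_pos hn0, ENNReal.ofReal_natCast]
    rw [h2, ENNReal.ofReal_le_ofReal_iff (by positivity)] at h1
    have h3 : (n : ℝ) ^ ((α : ℝ) - 1 / (s : ℝ)) =
        (n : ℝ) ^ (-(1 / (s : ℝ))) / (n : ℝ) ^ (-(α : ℝ)) := by
      rw [← Real.rpow_sub hn0]
      congr 1
      ring
    rw [h3, div_le_iff₀ (by positivity)]
    linarith
  have htend : Filter.Tendsto (fun n : ℕ => (n : ℝ) ^ ((α : ℝ) - 1 / (s : ℝ))) Filter.atTop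
      Filter.atTop :=
    (tendsto_rpow_atTop (by linarith)).comp tendsto_natCast_atTop_atTop
  obtain ⟨n, hn1, hn2⟩ := ((htend.eventually_gt_atTop (4 * (C : ℝ))).and
    (Filter.eventually_ge_atTop 2)).exists
  exact absurd (hkey n hn2) (not_le.2 hn1)

end Pool.Agent.Lib.MP_0852b5_an
end

section

/-!
# MP_0852b5_an: the randomized algorithm (count-sketch with medians)
-/

set_option linter.style.haveILetI false
set_option linter.unusedSectionVars false

open scoped ENNReal NNReal BoundedContinuousFunction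
open MeasureTheory

namespace Pool.Agent.Lib.MP_0852b5_an

section Alg

variable {β : Type} [Fintype β] [DecidableEq β]

/-- The functional belonging to the bucket `b` for the hashing `ω`. -/
noncomputable def bucket (D : ℕ) (ω : Fin D → β × Bool) (b : β) : (ℕ →ᵇ ℝ) →L[ℝ] ℝ :=
  ∑ i : Fin D, (if (ω i).1 = b then sg (ω i).2 else 0) •
    BoundedContinuousFunction.evalCLM ℝ (i : ℕ)

theorem bucket_apply (D : ℕ) (ω : Fin D → β × Bool) (b : β) (x : ℕ →ᵇ ℝ) :
    bucket D ω b x = ∑ i : Fin D, (if (ω i).1 = b then sg (ω i).2 else 0) * x (i : ℕ) := by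
  unfold bucket
  rw [sum_apply]
  refine Finset.sum_congr rfl fun i _ => ?_
  split_ifs
  · rfl
  · simp

theorem sg_mul_bucket (D : ℕ) (ω : Fin D → β × Bool) (x : ℕ →ᵇ ℝ) (j : Fin D) :
    sg (ω j).2 * bucket D ω (ω j).1 x = est ω (fun i : Fin D => x (i : ℕ)) j := by
  rw [bucket_apply, Finset.mul_sum]
  unfold est coef
  refine Finset.sum_congr rfl fun i _ => ?_
  split_ifs <;> ring

/-- The reconstruction map. -/
noncomputable def recon (D m : ℕ) (ω : Fin (2 * m) → Fin D → β × Bool)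
    (y : Fin (2 * m) → β → ℝ) : ℕ →ᵇ ℝ :=
  emb D (fun j => med m (fun t => sg (ω t j).2 * y t (ω t j).1))

/-- The output of the algorithm. -/
noncomputable def out (D m : ℕ) (ω : Fin (2 * m) → Fin D → β × Bool) (x : ℕ →ᵇ ℝ) : ℕ →ᵇ ℝ :=
  recon D m ω (fun t b => bucket D (ω t) b x)

theorem out_eq (D m : ℕ) (ω : Fin (2 * m) → Fin D → β × Bool) (x : ℕ →ᵇ ℝ) :
    out D m ω x = emb D (fun j => med m (fun t => est (ω t) (fun i : Fin D => x (i : ℕ)) j)) := by
  unfold out recon
  simp only [sg_mul_bucket]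

theorem measurable_out (D m : ℕ) (ω : Fin (2 * m) → Fin D → β × Bool) (F : Set (ℕ →ᵇ ℝ)) :
    @Measurable F (ℕ →ᵇ ℝ) (borel F) (borel (ℕ →ᵇ ℝ)) (fun x => out D m ω x) := by
  letI : MeasurableSpace F := borel F
  haveI : BorelSpace F := ⟨rfl⟩
  letI : MeasurableSpace (ℕ →ᵇ ℝ) := borel (ℕ →ᵇ ℝ)
  haveI : BorelSpace (ℕ →ᵇ ℝ) := ⟨rfl⟩
  have h1 : Continuous (emb D) := LinearMap.continuous_of_finiteDimensional _
  have h2 : Measurable (fun x : F => fun j : Fin D =>
      med m (fun t => sg (ω t j).2 * bucket D (ω t) (ω t j).1 (x : ℕ →ᵇ ℝ))) := by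
    rw [measurable_pi_iff]
    intro j
    apply (measurable_med m).comp
    rw [measurable_pi_iff]
    intro t
    apply Continuous.measurable
    exact continuous_const.mul ((bucket D (ω t) (ω t j).1).continuous.comp continuous_subtype_val)
  exact h1.measurable.comp h2

open Classical in
/-- Pointwise error bound. -/
theorem norm_sub_out_le {p κ : ℝ} (hp : 0 < p) (hκ : 0 ≤ κ) {D m : ℕ} (hD : 0 < D) (hm : 1 ≤ m)
    {θ : ℝ} (hθ : 0 < θ) (ω : Fin (2 * m) → Fin D → β × Bool) {x : ℕ →ᵇ ℝ} (hx : x ∈ ball p κ) :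
    ‖x - out D m ω x‖ ≤ θ + (D : ℝ) ^ (-κ) + 2 * D * ∑ j : Fin D,
      (if m ≤ (Finset.univ.filter fun t => Bad θ (fun i : Fin D => x (i : ℕ)) j (ω t)).card
        then (1 : ℝ) else 0) := by
  set S : ℝ := ∑ j : Fin D,
      (if m ≤ (Finset.univ.filter fun t => Bad θ (fun i : Fin D => x (i : ℕ)) j (ω t)).card
        then (1 : ℝ) else 0) with hS
  have hS0 : 0 ≤ S := Finset.sum_nonneg fun j _ => by split_ifs <;> norm_num
  have hD1 : (1 : ℝ) ≤ D := by exact_mod_cast hD
  have hDκ : 0 ≤ (D : ℝ) ^ (-κ) := by positivity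
  rw [BoundedContinuousFunction.norm_le (by positivity)]
  intro j
  rw [BoundedContinuousFunction.coe_sub, Pi.sub_apply, Real.norm_eq_abs, out_eq]
  by_cases hj : j < D
  · have hval : emb D (fun j => med m (fun t => est (ω t) (fun i : Fin D => x (i : ℕ)) j)) j
        = med m (fun t => est (ω t) (fun i : Fin D => x (i : ℕ)) ⟨j, hj⟩) :=
      emb_apply_lt (fun j => med m (fun t => est (ω t) (fun i : Fin D => x (i : ℕ)) j)) ⟨j, hj⟩
    rw [hval, abs_sub_comm]
    by_cases hb : m ≤ (Finset.univ.filter fun t =>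
        Bad θ (fun i : Fin D => x (i : ℕ)) ⟨j, hj⟩ (ω t)).card
    · have hS1 : 1 ≤ S := by
        have := Finset.single_le_sum (f := fun j : Fin D =>
          (if m ≤ (Finset.univ.filter fun t => Bad θ (fun i : Fin D => x (i : ℕ)) j (ω t)).card
            then (1 : ℝ) else 0)) (s := Finset.univ)
          (fun i _ => by split_ifs <;> norm_num) (Finset.mem_univ (⟨j, hj⟩ : Fin D))
        rw [hS]
        simpa only [if_pos hb] using this
      have hest : ∀ t, |est (ω t) (fun i : Fin D => x (i : ℕ)) ⟨j, hj⟩| ≤ D := by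
        intro t
        unfold est
        refine (Finset.abs_sum_le_sum_abs _ _).trans ?_
        calc ∑ i : Fin D, |coef (ω t) ⟨j, hj⟩ i * x (i : ℕ)| ≤ ∑ i : Fin D, (1 : ℝ) := by
              apply Finset.sum_le_sum
              intro i _
              rw [abs_mul]
              calc |coef (ω t) ⟨j, hj⟩ i| * |x (i : ℕ)| ≤ 1 * 1 := by
                    apply mul_le_mul (abs_coef_le _ _ _) (ball_abs_le_one hp hκ hx i)
                      (abs_nonneg _) (by norm_num)
                _ = 1 := by norm_num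
          _ = D := by simp
      have h1 := abs_med_le hm _ _ hest
      have h2 := ball_abs_le_one hp hκ hx j
      have h3 : |med m (fun t => est (ω t) (fun i : Fin D => x (i : ℕ)) ⟨j, hj⟩) - x j|
          ≤ D + 1 := (abs_sub _ _).trans (by linarith)
      have h4 : 2 * (D : ℝ) * 1 ≤ 2 * D * S := by gcongr
      linarith
    · have hb' : (Finset.univ.filter fun t =>
          θ < |est (ω t) (fun i : Fin D => x (i : ℕ)) ⟨j, hj⟩ - x j|).card < m := Nat.lt_of_not_le hb
      have h1 := abs_med_sub_le hm (fun t => est (ω t) (fun i : Fin D => x (i : ℕ)) ⟨j, hj⟩)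
        (x j) θ hb'
      have h2 : 0 ≤ 2 * (D : ℝ) * S := by positivity
      linarith
  · have hval : emb D (fun j => med m (fun t => est (ω t) (fun i : Fin D => x (i : ℕ)) j)) j = 0 :=
      emb_apply_ge _ (not_lt.1 hj)
    rw [hval, sub_zero]
    have h1 := ball_tail hp hκ hx hD (not_lt.1 hj)
    have h2 : 0 ≤ 2 * (D : ℝ) * S := by positivity
    linarith

open Classical in
/-- Bound of the average error. -/
theorem sum_norm_le [Nonempty β] {p κ : ℝ} (hp1 : 1 ≤ p) (hp2 : p ≤ 2) (hκ : 0 ≤ κ) {D m k : ℕ}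
    (hD : 0 < D) (hm : 1 ≤ m) (hk : 1 ≤ k) (hβ : 32 * k ≤ Fintype.card β)
    {x : ℕ →ᵇ ℝ} (hx : x ∈ ball p κ) :
    ∑ ω : Fin (2 * m) → Fin D → β × Bool, ‖x - out D m ω x‖ ≤
      (Fintype.card (Fin (2 * m) → Fin D → β × Bool) : ℝ) *
        ((k : ℝ) ^ (-(1 / p)) + (D : ℝ) ^ (-κ) + 2 * (D : ℝ) ^ 2 / 4 ^ m) := by
  have hp : 0 < p := by linarith
  have hk0 : (0 : ℝ) < k := by
    have : 0 < k := by omega
    exact_mod_cast this
  set θ : ℝ := (k : ℝ) ^ (-(1 / p)) with hθdef
  have hθ : 0 < θ := by positivity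
  have hθp : θ ^ p = (k : ℝ)⁻¹ := by
    rw [hθdef, ← Real.rpow_mul hk0.le]
    have : -(1 / p) * p = -1 := by field_simp
    rw [this, Real.rpow_neg_one]
  set xD : Fin D → ℝ := fun i => x (i : ℕ) with hxD
  have hsumD : ∑ i : Fin D, |xD i| ^ p ≤ 1 := by
    have := ball_sum_le hp hκ hx (Finset.range D)
    rwa [Finset.sum_range] at this
  have hH : ((Finset.univ.filter fun i => θ < |xD i|).card : ℝ) ≤ k := by
    have h1 : ((Finset.univ.filter fun i => θ < |xD i|).card : ℝ) * θ ^ p ≤ 1 := by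
      calc ((Finset.univ.filter fun i => θ < |xD i|).card : ℝ) * θ ^ p
          = ∑ i ∈ Finset.univ.filter (fun i => θ < |xD i|), θ ^ p := by
            rw [Finset.sum_const, nsmul_eq_mul]
        _ ≤ ∑ i ∈ Finset.univ.filter (fun i => θ < |xD i|), |xD i| ^ p := by
            apply Finset.sum_le_sum
            intro i hi
            rw [Finset.mem_filter] at hi
            exact Real.rpow_le_rpow hθ.le hi.2.le hp.le
        _ ≤ ∑ i, |xD i| ^ p := by
            apply Finset.sum_le_sum_of_subset_of_nonneg (Finset.filter_subset _ _)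
            intro i _ _
            positivity
        _ ≤ 1 := hsumD
    rw [hθp] at h1
    rw [← div_eq_mul_inv, div_le_one hk0] at h1
    exact h1
  have hS : ∑ i ∈ Finset.univ.filter (fun i => ¬ θ < |xD i|), (xD i) ^ 2 ≤ k * θ ^ 2 := by
    calc ∑ i ∈ Finset.univ.filter (fun i => ¬ θ < |xD i|), (xD i) ^ 2
        ≤ ∑ i ∈ Finset.univ.filter (fun i => ¬ θ < |xD i|), |xD i| ^ p * θ ^ (2 - p) := by
          apply Finset.sum_le_sum
          intro i hi
          rw [Finset.mem_filter] at hi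
          have hle : |xD i| ≤ θ := not_lt.1 hi.2
          rw [← sq_abs]
          rcases eq_or_lt_of_le (abs_nonneg (xD i)) with h0 | h0
          · rw [← h0]
            have : (0 : ℝ) ^ 2 = 0 := by norm_num
            rw [this]
            positivity
          · have h1 : |xD i| ^ 2 = |xD i| ^ p * |xD i| ^ (2 - p) := by
              rw [← Real.rpow_add h0]
              have : p + (2 - p) = ((2 : ℕ) : ℝ) := by push_cast; ring
              rw [this, Real.rpow_natCast]
            rw [h1]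
            apply mul_le_mul_of_nonneg_left _ (by positivity)
            exact Real.rpow_le_rpow h0.le hle (by linarith)
      _ ≤ ∑ i, |xD i| ^ p * θ ^ (2 - p) := by
          apply Finset.sum_le_sum_of_subset_of_nonneg (Finset.filter_subset _ _)
          intro i _ _
          positivity
      _ = (∑ i, |xD i| ^ p) * θ ^ (2 - p) := by rw [Finset.sum_mul]
      _ ≤ 1 * θ ^ (2 - p) := by gcongr
      _ = k * θ ^ 2 := by
          rw [one_mul, Real.rpow_sub hθ, hθp]
          rw [show (2 : ℝ) = ((2 : ℕ) : ℝ) by norm_num, Real.rpow_natCast]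
          field_simp
  have hbad : ∀ j : Fin D, ∑ ω : Fin D → β × Bool, (if Bad θ xD j ω then (1 : ℝ) else 0) ≤
      (Fintype.card (Fin D → β × Bool) : ℝ) * (1 / 16) := by
    intro j
    refine (card_bad hθ xD j k hH hS).trans ?_
    apply mul_le_mul_of_nonneg_left _ (Nat.cast_nonneg _)
    have hβ0 : (0 : ℝ) < Fintype.card β := by
      have := Fintype.card_pos (α := β)
      exact_mod_cast this
    rw [div_le_div_iff₀ hβ0 (by norm_num)]
    have : (32 : ℝ) * k ≤ Fintype.card β := by exact_mod_cast hβ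
    linarith
  have hamp : ∀ j : Fin D, ∑ ω : Fin (2 * m) → Fin D → β × Bool,
      (if m ≤ (Finset.univ.filter fun t => Bad θ xD j (ω t)).card then (1 : ℝ) else 0) ≤
      (Fintype.card (Fin (2 * m) → Fin D → β × Bool) : ℝ) / 4 ^ m := by
    intro j
    rw [le_div_iff₀ (by positivity)]
    exact amplify (Bad θ xD j) m (hbad j)
  calc ∑ ω : Fin (2 * m) → Fin D → β × Bool, ‖x - out D m ω x‖
      ≤ ∑ ω : Fin (2 * m) → Fin D → β × Bool, (θ + (D : ℝ) ^ (-κ) + 2 * D * ∑ j : Fin D,
      (if m ≤ (Finset.univ.filter fun t => Bad θ xD j (ω t)).card then (1 : ℝ) else 0)) :=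
        Finset.sum_le_sum fun ω _ => norm_sub_out_le hp hκ hD hm hθ ω hx
    _ = (Fintype.card (Fin (2 * m) → Fin D → β × Bool) : ℝ) * (θ + (D : ℝ) ^ (-κ)) +
        2 * D * ∑ j : Fin D, ∑ ω : Fin (2 * m) → Fin D → β × Bool,
      (if m ≤ (Finset.univ.filter fun t => Bad θ xD j (ω t)).card then (1 : ℝ) else 0) := by
        rw [Finset.sum_add_distrib, Finset.sum_const, Finset.card_univ, nsmul_eq_mul,
          ← Finset.mul_sum, Finset.sum_comm]
    _ ≤ (Fintype.card (Fin (2 * m) → Fin D → β × Bool) : ℝ) * (θ + (D : ℝ) ^ (-κ)) +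
        2 * D * ∑ j : Fin D, (Fintype.card (Fin (2 * m) → Fin D → β × Bool) : ℝ) / 4 ^ m := by
        gcongr with j _
        exact hamp j
    _ = _ := by
        rw [Finset.sum_const, Finset.card_univ, Fintype.card_fin, nsmul_eq_mul]
        ring

end Alg

section Main

variable {β : Type} [Fintype β] [DecidableEq β]

/-- The uniform probability measure on a finite type. -/
noncomputable def unif (Ω : Type) [Fintype Ω] [MeasurableSpace Ω] : Measure Ω :=
  (Fintype.card Ω : ℝ≥0∞)⁻¹ • Measure.count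

theorem unif_univ (Ω : Type) [Fintype Ω] [Nonempty Ω] [MeasurableSpace Ω]
    [MeasurableSingletonClass Ω] : unif Ω Set.univ = 1 := by
  unfold unif
  rw [Measure.smul_apply, smul_eq_mul]
  have h : (Measure.count : Measure Ω) Set.univ = Fintype.card Ω := by
    rw [← Finset.coe_univ, Measure.count_apply_finset]
    simp
  rw [h]
  apply ENNReal.inv_mul_cancel
  · exact_mod_cast Fintype.card_ne_zero
  · exact ENNReal.natCast_ne_top _

theorem lintegral_unif (Ω : Type) [Fintype Ω] [MeasurableSpace Ω]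
    [MeasurableSingletonClass Ω] (f : Ω → ℝ≥0∞) :
    ∫⁻ ω, f ω ∂(unif Ω) = (Fintype.card Ω : ℝ≥0∞)⁻¹ * ∑ ω, f ω := by
  unfold unif
  rw [lintegral_smul_measure, lintegral_count, tsum_fintype, smul_eq_mul]

theorem measAlg_out (D m : ℕ) (F : Set (ℕ →ᵇ ℝ)) :
    MeasAlg (⊤ : MeasurableSpace (Fin (2 * m) → Fin D → β × Bool)) F
      (fun ω x => out D m ω x) := by
  unfold MeasAlg
  letI : MeasurableSpace (Fin (2 * m) → Fin D → β × Bool) := ⊤
  haveI : MeasurableSingletonClass (Fin (2 * m) → Fin D → β × Bool) := ⟨fun _ => trivial⟩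
  letI : MeasurableSpace F := borel F
  letI : MeasurableSpace (ℕ →ᵇ ℝ) := borel (ℕ →ᵇ ℝ)
  apply measurable_from_prod_countable_right
  intro ω
  exact measurable_out D m ω F

/-- The functionals, indexed by `Fin N`. -/
noncomputable def Lfun (D m : ℕ) {N : ℕ} (e : Fin (2 * m) × β → Fin N)
    (ω : Fin (2 * m) → Fin D → β × Bool) : Fin N → ((ℕ →ᵇ ℝ) →L[ℝ] ℝ) :=
  Function.extend e (fun q => bucket D (ω q.1) q.2) 0

/-- The reconstruction map, for functionals indexed by `Fin N`. -/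
noncomputable def phi (D m : ℕ) {N : ℕ} (e : Fin (2 * m) × β → Fin N)
    (ω : Fin (2 * m) → Fin D → β × Bool) (y : Fin N → ℝ) : ℕ →ᵇ ℝ :=
  recon D m ω (fun t b => y (e (t, b)))

theorem phi_info (D m : ℕ) {N : ℕ} (e : Fin (2 * m) × β → Fin N) (he : Function.Injective e)
    (ω : Fin (2 * m) → Fin D → β × Bool) (x : ℕ →ᵇ ℝ) :
    phi D m e ω (info (Lfun D m e ω) x) = out D m ω x := by
  unfold phi out info Lfun
  simp only [he.extend_apply]

/-- The randomized algorithm. -/
noncomputable def alg (D m : ℕ) {N : ℕ} [Nonempty β] (e : Fin (2 * m) × β → Fin N)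
    (he : Function.Injective e) (F : Set (ℕ →ᵇ ℝ)) : RandAlg (ℕ →ᵇ ℝ) F N where
  Ω := Fin (2 * m) → Fin D → β × Bool
  mΩ := ⊤
  P := @unif (Fin (2 * m) → Fin D → β × Bool) _ ⊤
  prob := by
    letI : MeasurableSpace (Fin (2 * m) → Fin D → β × Bool) := ⊤
    haveI : MeasurableSingletonClass (Fin (2 * m) → Fin D → β × Bool) := ⟨fun _ => trivial⟩
    exact unif_univ _
  L := Lfun D m e
  φ := phi D m e
  meas := by
    simp only [phi_info D m e he]
    exact measAlg_out D m F

theorem eRan_le {p κ : ℝ} (hp1 : 1 ≤ p) (hp2 : p ≤ 2) (hκ : 0 ≤ κ) {D m k N : ℕ}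
    (hD : 0 < D) (hm : 1 ≤ m) (hk : 1 ≤ k) (hN : 64 * k * m ≤ N) :
    eRan (ContinuousLinearMap.id ℝ (ℕ →ᵇ ℝ)) (ball p κ) N ≤
      ENNReal.ofReal ((k : ℝ) ^ (-(1 / p)) + (D : ℝ) ^ (-κ) + 2 * (D : ℝ) ^ 2 / 4 ^ m) := by
  haveI : NeZero (32 * k) := ⟨by omega⟩
  have hcard : Fintype.card (Fin (2 * m) × Fin (32 * k)) ≤ Fintype.card (Fin N) := by
    simp only [Fintype.card_prod, Fintype.card_fin]
    calc 2 * m * (32 * k) = 64 * k * m := by ring
      _ ≤ N := hN
  obtain ⟨e⟩ := Function.Embedding.nonempty_of_card_le hcard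
  refine (iInf_le _ (alg D m e e.injective (ball p κ))).trans ?_
  unfold ranErr
  refine iSup_le fun f => ?_
  obtain ⟨x, hx⟩ := f
  have h1 : @lintegral (alg D m e e.injective (ball p κ)).Ω (alg D m e e.injective (ball p κ)).mΩ
      (alg D m e e.injective (ball p κ)).P
      (fun ω => ‖(ContinuousLinearMap.id ℝ (ℕ →ᵇ ℝ)) x - (alg D m e e.injective (ball p κ)).φ ω
        (info ((alg D m e e.injective (ball p κ)).L ω) x)‖ₑ)
      = (Fintype.card (Fin (2 * m) → Fin D → Fin (32 * k) × Bool) : ℝ≥0∞)⁻¹ *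
        ∑ ω : Fin (2 * m) → Fin D → Fin (32 * k) × Bool, ‖x - out D m ω x‖ₑ := by
    letI : MeasurableSpace (Fin (2 * m) → Fin D → Fin (32 * k) × Bool) := ⊤
    haveI : MeasurableSingletonClass (Fin (2 * m) → Fin D → Fin (32 * k) × Bool) :=
      ⟨fun _ => trivial⟩
    rw [← lintegral_unif]
    have h2 : ∀ ω, phi D m e ω (info (Lfun D m e ω) x) = out D m ω x :=
      fun ω => phi_info D m e e.injective ω x
    simp only [← h2]
    rfl
  change @lintegral (alg D m e e.injective (ball p κ)).Ω (alg D m e e.injective (ball p κ)).mΩ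
      (alg D m e e.injective (ball p κ)).P
      (fun ω => ‖(ContinuousLinearMap.id ℝ (ℕ →ᵇ ℝ)) x - (alg D m e e.injective (ball p κ)).φ ω
        (info ((alg D m e e.injective (ball p κ)).L ω) x)‖ₑ) ≤ _
  rw [h1]
  have hβ : 32 * k ≤ Fintype.card (Fin (32 * k)) := by simp
  have h3 := sum_norm_le (β := Fin (32 * k)) hp1 hp2 hκ hD hm hk hβ hx
  have h4 : ∑ ω : Fin (2 * m) → Fin D → Fin (32 * k) × Bool, ‖x - out D m ω x‖ₑ
      = ENNReal.ofReal (∑ ω : Fin (2 * m) → Fin D → Fin (32 * k) × Bool, ‖x - out D m ω x‖) := by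
    rw [ENNReal.ofReal_sum_of_nonneg (fun _ _ => norm_nonneg _)]
    refine Finset.sum_congr rfl fun ω _ => ?_
    rw [ofReal_norm]
  rw [h4]
  have hc0 : (0 : ℝ) < (Fintype.card (Fin (2 * m) → Fin D → Fin (32 * k) × Bool) : ℝ) := by
    have := Fintype.card_pos (α := Fin (2 * m) → Fin D → Fin (32 * k) × Bool)
    exact_mod_cast this
  calc (Fintype.card (Fin (2 * m) → Fin D → Fin (32 * k) × Bool) : ℝ≥0∞)⁻¹ *
        ENNReal.ofReal (∑ ω : Fin (2 * m) → Fin D → Fin (32 * k) × Bool, ‖x - out D m ω x‖)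
      ≤ (Fintype.card (Fin (2 * m) → Fin D → Fin (32 * k) × Bool) : ℝ≥0∞)⁻¹ *
        ENNReal.ofReal ((Fintype.card (Fin (2 * m) → Fin D → Fin (32 * k) × Bool) : ℝ) *
        ((k : ℝ) ^ (-(1 / p)) + (D : ℝ) ^ (-κ) + 2 * (D : ℝ) ^ 2 / 4 ^ m)) := by
        gcongr
    _ = ENNReal.ofReal ((k : ℝ) ^ (-(1 / p)) + (D : ℝ) ^ (-κ) + 2 * (D : ℝ) ^ 2 / 4 ^ m) := by
        rw [ENNReal.ofReal_mul hc0.le, ENNReal.ofReal_natCast, ← mul_assoc,
          ENNReal.inv_mul_cancel, one_mul]
        · exact_mod_cast Fintype.card_ne_zero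
        · exact ENNReal.natCast_ne_top _

end Main

end Pool.Agent.Lib.MP_0852b5_an
end

section

/-!
# MP_0852b5_an: rate of the randomized algorithm and the bound `1 ≤ G`
-/

set_option linter.style.haveILetI false

open scoped ENNReal NNReal BoundedContinuousFunction
open MeasureTheory

namespace Pool.Agent.Lib.MP_0852b5_an

/-- The zero algorithm. -/
noncomputable def zeroAlg (F : Set (ℕ →ᵇ ℝ)) (N : ℕ) : RandAlg (ℕ →ᵇ ℝ) F N where
  Ω := Unit
  mΩ := ⊤
  P := @unif Unit _ ⊤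
  prob := by
    letI : MeasurableSpace Unit := ⊤
    exact unif_univ _
  L := fun _ _ => 0
  φ := fun _ _ => 0
  meas := @measurable_const _ _ (borel (ℕ →ᵇ ℝ)) _ _

theorem eRan_le_one {p κ : ℝ} (hp : 0 < p) (hκ : 0 ≤ κ) (N : ℕ) :
    eRan (ContinuousLinearMap.id ℝ (ℕ →ᵇ ℝ)) (ball p κ) N ≤ 1 := by
  refine (iInf_le _ (zeroAlg (ball p κ) N)).trans ?_
  unfold ranErr
  refine iSup_le fun f => ?_
  obtain ⟨x, hx⟩ := f
  have h1 : ‖x‖ₑ ≤ 1 := by
    have : ‖x‖ ≤ 1 := by
      rw [BoundedContinuousFunction.norm_le (by norm_num)]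
      intro i
      exact ball_abs_le_one hp hκ hx i
    rw [← ofReal_norm, ← ENNReal.ofReal_one]
    exact ENNReal.ofReal_le_ofReal this
  have h2 : @lintegral (zeroAlg (ball p κ) N).Ω (zeroAlg (ball p κ) N).mΩ
      (zeroAlg (ball p κ) N).P (fun _ => ‖x‖ₑ) ≤ 1 := by
    letI : MeasurableSpace Unit := ⊤
    have h3 := lintegral_unif Unit (fun _ => ‖x‖ₑ)
    have h4 : ∫⁻ _, ‖x‖ₑ ∂(unif Unit) ≤ 1 := by
      rw [h3]
      simpa using h1
    exact h4
  refine le_trans (le_of_eq ?_) h2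
  congr 1
  funext ω
  change ‖x - 0‖ₑ = ‖x‖ₑ
  rw [sub_zero]

theorem pow_choice {s N m : ℕ} (hs : 2 ≤ s) (hN : 1 ≤ N)
    (hm : (2 * (s : ℝ) ^ 3 + s + 1) * (N : ℝ) ^ (1 / (s : ℝ)) ≤ m) :
    2 * (((N ^ (s ^ 2) : ℕ) : ℝ)) ^ 2 / 4 ^ m ≤ (N : ℝ)⁻¹ := by
  have hN1 : (1 : ℝ) ≤ N := by exact_mod_cast hN
  have hN0 : (0 : ℝ) < N := by linarith
  have hs0 : (0 : ℝ) < s := by
    have : 0 < s := by omega
    exact_mod_cast this
  set r : ℝ := (N : ℝ) ^ (1 / (s : ℝ)) with hr
  have hr1 : 1 ≤ r := Real.one_le_rpow hN1 (by positivity)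
  have hlog : Real.log N ≤ s * r := by
    have := Real.log_le_rpow_div hN0.le (show 0 < 1 / (s : ℝ) by positivity)
    rw [← hr] at this
    calc Real.log N ≤ r / (1 / s) := this
      _ = s * r := by field_simp
  have h4 : Real.exp m ≤ 4 ^ m := by
    have h5 : Real.exp 1 ≤ 4 := by
      have := Real.exp_one_lt_d9
      linarith
    calc Real.exp m = (Real.exp 1) ^ m := by rw [← Real.exp_nat_mul, mul_one]
      _ ≤ 4 ^ m := pow_le_pow_left₀ (Real.exp_pos _).le h5 m
  have h2 : (2 : ℝ) ≤ Real.exp r := by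
    have := Real.add_one_le_exp r
    linarith
  have hNpow : (((N ^ (s ^ 2) : ℕ) : ℝ)) ^ 2 * N = Real.exp ((2 * (s : ℝ) ^ 2 + 1) * Real.log N) := by
    have e1 : (((N ^ (s ^ 2) : ℕ) : ℝ)) ^ 2 * N = (N : ℝ) ^ (2 * s ^ 2 + 1) := by
      push_cast
      ring
    rw [e1]
    have e2 : (2 * (s : ℝ) ^ 2 + 1) = ((2 * s ^ 2 + 1 : ℕ) : ℝ) := by push_cast; ring
    rw [e2, Real.exp_nat_mul, Real.exp_log hN0]
  have hfin : 2 * ((((N ^ (s ^ 2) : ℕ) : ℝ)) ^ 2 * N) ≤ 4 ^ m := by
    calc 2 * ((((N ^ (s ^ 2) : ℕ) : ℝ)) ^ 2 * N)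
        ≤ Real.exp r * Real.exp ((2 * (s : ℝ) ^ 2 + 1) * Real.log N) := by
          rw [hNpow]
          gcongr
      _ = Real.exp (r + (2 * (s : ℝ) ^ 2 + 1) * Real.log N) := by rw [Real.exp_add]
      _ ≤ Real.exp m := by
          apply Real.exp_le_exp.2
          have : (2 * (s : ℝ) ^ 2 + 1) * Real.log N ≤ (2 * (s : ℝ) ^ 2 + 1) * (s * r) := by
            gcongr
          nlinarith
      _ ≤ 4 ^ m := h4
  rw [div_le_iff₀ (by positivity)]
  have : (N : ℝ)⁻¹ * 4 ^ m ≥ (N : ℝ)⁻¹ * (2 * ((((N ^ (s ^ 2) : ℕ) : ℝ)) ^ 2 * N)) := by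
    gcongr
  calc 2 * (((N ^ (s ^ 2) : ℕ) : ℝ)) ^ 2
      = (N : ℝ)⁻¹ * (2 * ((((N ^ (s ^ 2) : ℕ) : ℝ)) ^ 2 * N)) := by field_simp
    _ ≤ _ := this

/-- The exponent `α = (s-1)/(s+1)`. -/
noncomputable def aa (s : ℕ) : ℝ := ((s : ℝ) - 1) / (s + 1)

theorem eRan_upper {s : ℕ} (hs : 2 ≤ s) (N : ℕ) (hN : 1 ≤ N) :
    eRan (ContinuousLinearMap.id ℝ (ℕ →ᵇ ℝ)) (ball (pp s) (kk s)) N ≤
      ENNReal.ofReal ((256 * (2 * (s : ℝ) ^ 3 + s + 1) + 2) * (N : ℝ) ^ (-(aa s))) := by
  have hN1 : (1 : ℝ) ≤ N := by exact_mod_cast hN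
  have hN0 : (0 : ℝ) < N := by linarith
  have hs0 : (0 : ℝ) < s := by
    have : 0 < s := by omega
    exact_mod_cast this
  have hs2 : (2 : ℝ) ≤ s := by exact_mod_cast hs
  set M : ℝ := 2 * (s : ℝ) ^ 3 + s + 1 with hM
  have hM1 : 1 ≤ M := by
    have : 0 < 2 * (s : ℝ) ^ 3 := by positivity
    linarith
  set r : ℝ := (N : ℝ) ^ (1 / (s : ℝ)) with hr
  have hr1 : 1 ≤ r := Real.one_le_rpow hN1 (by positivity)
  set m : ℕ := ⌈M * r⌉₊ with hmdef
  have hm_ge : M * r ≤ m := Nat.le_ceil _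
  have hMr : 1 ≤ M * r := by nlinarith
  have hm_lt : (m : ℝ) ≤ 2 * (M * r) := by
    have := Nat.ceil_lt_add_one (show 0 ≤ M * r by linarith)
    rw [← hmdef] at this
    linarith
  have hm1 : 1 ≤ m := by
    have : (1 : ℝ) ≤ m := by linarith
    exact_mod_cast this
  have hα0 : 0 ≤ aa s := by
    unfold aa
    apply div_nonneg <;> linarith
  have hα1 : aa s ≤ 1 - 1 / (s : ℝ) := by
    unfold aa
    rw [div_le_iff₀ (by linarith)]
    have : (1 - 1 / (s : ℝ)) * (s + 1) = s - 1 / s := by field_simp; ring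
    rw [this]
    have : 1 / (s : ℝ) ≤ 1 := by
      rw [div_le_one hs0]; linarith
    linarith
  set k : ℕ := N / (64 * m) with hk
  by_cases hk0 : k = 0
  · refine (eRan_le_one (pp_pos s) (kk_nonneg s) N).trans ?_
    rw [← ENNReal.ofReal_one]
    apply ENNReal.ofReal_le_ofReal
    have h1 : N < 64 * m := by
      have := Nat.div_eq_zero_iff.1 (hk ▸ hk0 : N / (64 * m) = 0)
      rcases this with h | h
      · omega
      · exact h
    have h2 : (N : ℝ) < 128 * M * r := by
      have : (N : ℝ) < 64 * m := by exact_mod_cast h1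
      linarith
    have h3 : (N : ℝ) ^ (1 - 1 / (s : ℝ)) ≤ 128 * M := by
      rw [Real.rpow_sub hN0, Real.rpow_one, ← hr, div_le_iff₀ (by linarith)]
      exact h2.le
    have h4 : (N : ℝ) ^ (aa s) ≤ 128 * M :=
      (Real.rpow_le_rpow_of_exponent_le hN1 hα1).trans h3
    rw [Real.rpow_neg hN0.le, ← div_eq_mul_inv, le_div_iff₀ (by positivity)]
    linarith
  · have hk1 : 1 ≤ k := Nat.one_le_iff_ne_zero.2 hk0
    have hkN : 64 * k * m ≤ N := by
      have := Nat.div_mul_le_self N (64 * m)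
      rw [← hk] at this
      calc 64 * k * m = k * (64 * m) := by ring
        _ ≤ N := this
    have hD : 0 < N ^ (s ^ 2) := by positivity
    have hp1 := one_le_pp s
    have hp2 : pp s ≤ 2 := by
      unfold pp
      have : 1 / (s : ℝ) ≤ 1 := by
        rw [div_le_one hs0]; linarith
      linarith
    refine (eRan_le hp1 hp2 (kk_nonneg s) hD hm1 hk1 hkN).trans ?_
    apply ENNReal.ofReal_le_ofReal
    have hinv : (N : ℝ)⁻¹ ≤ (N : ℝ) ^ (-(aa s)) := by
      rw [← Real.rpow_neg_one]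
      apply Real.rpow_le_rpow_of_exponent_le hN1
      have : 0 < 1 / (s : ℝ) := by positivity
      linarith
    have h1 : (((N ^ (s ^ 2) : ℕ) : ℝ)) ^ (-(kk s)) = (N : ℝ)⁻¹ := by
      push_cast
      rw [← Real.rpow_natCast, ← Real.rpow_mul hN0.le, ← Real.rpow_neg_one]
      congr 1
      unfold kk
      push_cast
      field_simp
    have h2 := pow_choice hs hN (hM ▸ hr ▸ hm_ge)
    have hk0' : (0 : ℝ) < k := by exact_mod_cast hk1
    have h3 : (k : ℝ) ^ (-(1 / pp s)) ≤ 256 * M * (N : ℝ) ^ (-(aa s)) := by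
      have hklow : (N : ℝ) ^ (1 - 1 / (s : ℝ)) / (256 * M) ≤ k := by
        rw [Real.rpow_sub hN0, Real.rpow_one, ← hr, div_div, div_le_iff₀ (by positivity)]
        have h5 : N < (k + 1) * (64 * m) := by
          have := Nat.lt_mul_div_succ N (show 0 < 64 * m by omega)
          rw [← hk] at this
          calc N < 64 * m * (k + 1) := this
            _ = (k + 1) * (64 * m) := by ring
        have h6 : (N : ℝ) < (k + 1) * (64 * m) := by exact_mod_cast h5
        have hk1' : (1 : ℝ) ≤ k := by exact_mod_cast hk1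
        have h7 : ((k : ℝ) + 1) * (64 * m) ≤ (2 * k) * (64 * (2 * (M * r))) := by
          gcongr
          linarith
        calc (N : ℝ) ≤ (2 * k) * (64 * (2 * (M * r))) := by linarith
          _ = k * (r * (256 * M)) := by ring
      have hlow0 : 0 < (N : ℝ) ^ (1 - 1 / (s : ℝ)) / (256 * M) := by positivity
      calc (k : ℝ) ^ (-(1 / pp s))
          ≤ ((N : ℝ) ^ (1 - 1 / (s : ℝ)) / (256 * M)) ^ (-(1 / pp s)) := by
            apply Real.rpow_le_rpow_of_nonpos hlow0 hklow
            have : 0 < 1 / pp s := by have := pp_pos s; positivity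
            linarith
        _ = (256 * M) ^ (1 / pp s) * (N : ℝ) ^ (-(aa s)) := by
            rw [Real.div_rpow (by positivity) (by positivity), ← Real.rpow_mul hN0.le,
              Real.rpow_neg (show (0 : ℝ) ≤ 256 * M by positivity), div_inv_eq_mul, mul_comm]
            congr 2
            unfold aa pp
            field_simp
        _ ≤ 256 * M * (N : ℝ) ^ (-(aa s)) := by
            apply mul_le_mul_of_nonneg_right _ (by positivity)
            have h8 : (1 : ℝ) ≤ 256 * M := by linarith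
            have h9 : 1 / pp s ≤ 1 := by
              rw [div_le_one (pp_pos s)]; exact hp1
            have := Real.rpow_le_rpow_of_exponent_le h8 h9
            simpa using this
    rw [h1]
    nlinarith

theorem hasRate_ran {s : ℕ} (hs : 2 ≤ s) :
    ENNReal.ofReal (aa s) ≤
      rate (eRan (ContinuousLinearMap.id ℝ (ℕ →ᵇ ℝ)) (ball (pp s) (kk s))) := by
  have hs2 : (2 : ℝ) ≤ s := by exact_mod_cast hs
  have hα0 : 0 < aa s := by
    unfold aa
    apply div_pos <;> linarith
  have hmem : 0 < (aa s).toNNReal ∧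
      HasRate (eRan (ContinuousLinearMap.id ℝ (ℕ →ᵇ ℝ)) (ball (pp s) (kk s))) (aa s).toNNReal := by
    refine ⟨Real.toNNReal_pos.2 hα0, (256 * (2 * (s : ℝ) ^ 3 + s + 1) + 2).toNNReal, ?_⟩
    intro n hn
    refine (eRan_upper hs n hn).trans (le_of_eq ?_)
    have hn0 : (0 : ℝ) < n := by
      have : 0 < n := hn
      exact_mod_cast this
    rw [ENNReal.ofReal_mul (by positivity), Real.coe_toNNReal _ hα0.le,
      ← ENNReal.ofReal_rpow_of_pos hn0, ENNReal.ofReal_natCast]
    rfl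
  exact le_iSup (fun α : {α : ℝ≥0 // 0 < α ∧
    HasRate (eRan (ContinuousLinearMap.id ℝ (ℕ →ᵇ ℝ)) (ball (pp s) (kk s))) α} =>
      ((α : ℝ≥0) : ℝ≥0∞)) ⟨_, hmem⟩

/-- The example. -/
noncomputable def exProblem (s : ℕ) : LinProblem where
  X := ℕ →ᵇ ℝ
  Y := ℕ →ᵇ ℝ
  S := ContinuousLinearMap.id ℝ (ℕ →ᵇ ℝ)
  F := ball (pp s) (kk s)
  convex := ball_convex (one_le_pp s)
  symm := ball_symm

theorem gain_exProblem {s : ℕ} (hs : 2 ≤ s) :
    ((aa s - 1 / (s : ℝ) : ℝ) : EReal) ≤ gain (exProblem s) := by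
  unfold gain
  have h1 := hasRate_ran hs
  have h2 := det_rate_le hs
  have hs2 : (2 : ℝ) ≤ s := by exact_mod_cast hs
  have hα0 : 0 ≤ aa s := by
    unfold aa
    apply div_nonneg <;> linarith
  have e1 : ((aa s : ℝ) : EReal) ≤
      (rate (eRan (exProblem s).S (exProblem s).F) : EReal) := by
    have : ((ENNReal.ofReal (aa s) : ℝ≥0∞) : EReal) ≤
      (rate (eRan (exProblem s).S (exProblem s).F) : EReal) := EReal.coe_ennreal_le_coe_ennreal_iff.2 h1
    rwa [EReal.coe_ennreal_ofReal, max_eq_left hα0] at this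
  have e2 : (rate (eDet (exProblem s).S (exProblem s).F) : EReal) ≤ ((1 / (s : ℝ) : ℝ) : EReal) := by
    have : (rate (eDet (exProblem s).S (exProblem s).F) : EReal) ≤
      ((ENNReal.ofReal (1 / (s : ℝ)) : ℝ≥0∞) : EReal) := EReal.coe_ennreal_le_coe_ennreal_iff.2 h2
    rwa [EReal.coe_ennreal_ofReal, max_eq_left (by positivity)] at this
  rw [EReal.coe_sub]
  exact EReal.sub_le_sub e1 e2

theorem one_le_G : 1 ≤ G := by
  have h : ∀ s : ℕ, 2 ≤ s → ((aa s - 1 / (s : ℝ) : ℝ) : EReal) ≤ G := fun s hs =>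
    (gain_exProblem hs).trans (le_iSup gain (exProblem s))
  have htend : Filter.Tendsto (fun s : ℕ => (aa s - 1 / (s : ℝ) : ℝ)) Filter.atTop (nhds 1) := by
    have h1 : Filter.Tendsto (fun s : ℕ => 1 / (s : ℝ)) Filter.atTop (nhds 0) :=
      tendsto_one_div_atTop_nhds_zero_nat
    have h2 : Filter.Tendsto (fun s : ℕ => 1 / ((s : ℝ) + 1)) Filter.atTop (nhds 0) :=
      tendsto_one_div_add_atTop_nhds_zero_nat
    have h3 : Filter.Tendsto (fun s : ℕ => (1 - 2 * (1 / ((s : ℝ) + 1))) - 1 / (s : ℝ))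
        Filter.atTop (nhds ((1 - 2 * 0) - 0)) :=
      (tendsto_const_nhds.sub (h2.const_mul 2)).sub h1
    have h4 : ((1 : ℝ) - 2 * 0) - 0 = 1 := by norm_num
    rw [h4] at h3
    refine h3.congr fun s => ?_
    have : (s : ℝ) + 1 ≠ 0 := by positivity
    unfold aa
    field_simp
    ring
  have htend' : Filter.Tendsto (fun s : ℕ => ((aa s - 1 / (s : ℝ) : ℝ) : EReal)) Filter.atTop
      (nhds ((1 : ℝ) : EReal)) :=
    (continuous_coe_real_ereal.tendsto 1).comp htend
  have := le_of_tendsto htend' (Filter.eventually_atTop.2 ⟨2, h⟩)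
  simpa using this

end Pool.Agent.Lib.MP_0852b5_an
end
end
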