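import Mathlib
import Pool.Agent.Lib.MP_0852b5_an.Defs

section

set_option autoImplicit false
open Module MeasureTheory ProbabilityTheory
open scoped RealInnerProductSpace ENNReal NNReal

namespace Pool.Agent.Lib.MP_0852b5_an

section gauss

variable {N : ℕ}

/-- Euclidean space of dimension `N` -/
abbrev EN (N : ℕ) : Type := EuclideanSpace ℝ (Fin N)

lemma map_inner_stdGaussian (v : EN N) (hv : ‖v‖ = 1) :
    (stdGaussian (EN N)).map (innerSL ℝ v) = gaussianReal 0 1 := by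
  rw [IsGaussian.map_eq_gaussianReal, integral_strongDual_stdGaussian, variance_dual_stdGaussian,
    innerSL_apply_norm, hv]
  norm_num

lemma gaussianReal_Ioo_le : gaussianReal 0 1 (Set.Ioo (-(1 / 2) : ℝ) (1 / 2)) ≤ ENNReal.ofReal (2 / 5) := by
  rw [gaussianReal_apply _ one_ne_zero]
  calc ∫⁻ x in Set.Ioo (-(1 / 2) : ℝ) (1 / 2), gaussianPDF 0 1 x
      ≤ ∫⁻ _x in Set.Ioo (-(1 / 2) : ℝ) (1 / 2), ENNReal.ofReal (2 / 5) := by
        apply lintegral_mono
        intro x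
        rw [gaussianPDF_def]
        apply ENNReal.ofReal_le_ofReal
        rw [gaussianPDFReal_def]
        simp only [NNReal.coe_one, mul_one]
        have h1 : Real.exp (-(x - 0) ^ 2 / 2) ≤ 1 := by
          rw [Real.exp_le_one_iff]
          have : 0 ≤ (x - 0) ^ 2 := sq_nonneg _
          linarith
        have h2 : (√(2 * Real.pi))⁻¹ ≤ 2 / 5 := by
          have h3 : (5 / 2 : ℝ) ≤ √(2 * Real.pi) := by
            apply Real.le_sqrt_of_sq_le
            have := Real.pi_gt_d2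
            norm_num
            linarith
          calc (√(2 * Real.pi))⁻¹ ≤ (5 / 2 : ℝ)⁻¹ := inv_anti₀ (by norm_num) h3
            _ = 2 / 5 := by norm_num
        have h4 : 0 ≤ (√(2 * Real.pi))⁻¹ := by positivity
        calc (√(2 * Real.pi))⁻¹ * Real.exp (-(x - 0) ^ 2 / 2) ≤ (2 / 5) * 1 :=
              mul_le_mul h2 h1 (Real.exp_pos _).le (by norm_num)
          _ = 2 / 5 := by ring
    _ = ENNReal.ofReal (2 / 5) * volume (Set.Ioo (-(1 / 2) : ℝ) (1 / 2)) := by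
        rw [setLIntegral_const]
    _ = ENNReal.ofReal (2 / 5) := by
        rw [Real.volume_Ioo]
        norm_num

lemma stdGaussian_small_inner (v : EN N) (hv : ‖v‖ = 1) :
    stdGaussian (EN N) {a | |⟪v, a⟫| < 1 / 2} ≤ ENNReal.ofReal (2 / 5) := by
  have h1 : {a : EN N | |⟪v, a⟫| < 1 / 2} = innerSL ℝ v ⁻¹' Set.Ioo (-(1 / 2) : ℝ) (1 / 2) := by
    ext a
    simp [abs_lt]
  rw [h1, ← Measure.map_apply (by fun_prop) measurableSet_Ioo, map_inner_stdGaussian v hv]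
  exact gaussianReal_Ioo_le

lemma integral_inner_sq (v : EN N) (hv : ‖v‖ = 1) :
    Integrable (fun a => ⟪v, a⟫ ^ 2) (stdGaussian (EN N)) ∧
      ∫ a, ⟪v, a⟫ ^ 2 ∂(stdGaussian (EN N)) = 1 := by
  have h0 : MemLp (fun a : EN N => ⟪v, a⟫) 2 (stdGaussian (EN N)) := by
    have : MemLp (innerSL ℝ v : EN N → ℝ) 2 (stdGaussian (EN N)) :=
      IsGaussian.memLp_dual (stdGaussian (EN N)) (innerSL ℝ v) 2 (by norm_num)
    simpa using this
  refine ⟨h0.integrable_sq, ?_⟩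
  have h1 := variance_dual_stdGaussian (E := EN N) (innerSL ℝ v)
  rw [innerSL_apply_norm, hv, variance_of_integral_eq_zero (by fun_prop)
    (integral_strongDual_stdGaussian _)] at h1
  simpa using h1

lemma integral_norm_sq :
    Integrable (fun a : EN N => ‖a‖ ^ 2) (stdGaussian (EN N)) ∧
      ∫ a, ‖a‖ ^ 2 ∂(stdGaussian (EN N)) = N := by
  have h1 : ∀ a : EN N, ‖a‖ ^ 2 = ∑ i : Fin N, ⟪EuclideanSpace.basisFun (Fin N) ℝ i, a⟫ ^ 2 := by
    intro a
    exact ((EuclideanSpace.basisFun (Fin N) ℝ).sum_sq_inner_right a).symm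
  have h2 : ∀ i, ‖EuclideanSpace.basisFun (Fin N) ℝ i‖ = 1 := fun i =>
    (EuclideanSpace.basisFun (Fin N) ℝ).norm_eq_one i
  simp only [h1]
  refine ⟨integrable_finsetSum _ (fun i _ => (integral_inner_sq _ (h2 i)).1), ?_⟩
  rw [integral_finsetSum _ (fun i _ => (integral_inner_sq _ (h2 i)).1)]
  simp only [fun i => (integral_inner_sq _ (h2 i)).2]
  simp

lemma stdGaussian_large_norm (hN : 0 < N) :
    stdGaussian (EN N) {a | 4 * √(N : ℝ) < ‖a‖} ≤ ENNReal.ofReal (1 / 16) := by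
  have hNr : (0 : ℝ) < N := by exact_mod_cast hN
  have h1 := mul_meas_ge_le_integral_of_nonneg (μ := stdGaussian (EN N))
    (f := fun a : EN N => ‖a‖ ^ 2) (Filter.Eventually.of_forall (fun a => by positivity))
    integral_norm_sq.1 (16 * N)
  rw [integral_norm_sq.2] at h1
  have h2 : (stdGaussian (EN N)).real {a : EN N | 16 * (N : ℝ) ≤ ‖a‖ ^ 2} ≤ 1 / 16 := by
    have h5 : 16 * (N : ℝ) * (stdGaussian (EN N)).real {a : EN N | 16 * (N : ℝ) ≤ ‖a‖ ^ 2} ≤
        16 * (N : ℝ) * (1 / 16) := by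
      calc _ ≤ (N : ℝ) := h1
        _ = 16 * (N : ℝ) * (1 / 16) := by ring
    exact le_of_mul_le_mul_left h5 (by positivity)
  have h3 : {a : EN N | 4 * √(N : ℝ) < ‖a‖} ⊆ {a : EN N | 16 * (N : ℝ) ≤ ‖a‖ ^ 2} := by
    intro a ha
    have ha' : 4 * √(N : ℝ) < ‖a‖ := ha
    show 16 * (N : ℝ) ≤ ‖a‖ ^ 2
    have h4 : (4 * √(N : ℝ)) ^ 2 ≤ ‖a‖ ^ 2 := pow_le_pow_left₀ (by positivity) ha'.le 2
    rw [mul_pow, Real.sq_sqrt hNr.le] at h4
    linarith
  calc stdGaussian (EN N) {a | 4 * √(N : ℝ) < ‖a‖}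
      ≤ stdGaussian (EN N) {a : EN N | 16 * (N : ℝ) ≤ ‖a‖ ^ 2} := measure_mono h3
    _ = ENNReal.ofReal ((stdGaussian (EN N)).real {a : EN N | 16 * (N : ℝ) ≤ ‖a‖ ^ 2}) := by
        rw [ofReal_measureReal]
    _ ≤ ENNReal.ofReal (1 / 16) := ENNReal.ofReal_le_ofReal h2

/-- First moment of a coordinate on the ball of radius `4 √N`. -/
lemma setLIntegral_inner (hN : 0 < N) (v : EN N) (hv : ‖v‖ = 1) :
    ENNReal.ofReal (1 / 4) ≤
      ∫⁻ a in {a : EN N | ‖a‖ ≤ 4 * √(N : ℝ)}, ENNReal.ofReal |⟪v, a⟫| ∂(stdGaussian (EN N)) := by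
  set γ := stdGaussian (EN N) with hγ
  set D : Set (EN N) := {a | ‖a‖ ≤ 4 * √(N : ℝ)} with hD
  set A : Set (EN N) := {a | |⟪v, a⟫| < 1 / 2} with hA
  have hDm : MeasurableSet D := measurableSet_le (by fun_prop) (by fun_prop)
  have hAm : MeasurableSet A := measurableSet_lt (by fun_prop) (by fun_prop)
  have h1 : γ (Dᶜ ∪ A) ≤ ENNReal.ofReal (1 / 2) := by
    refine (measure_union_le _ _).trans ?_
    have h2 : Dᶜ = {a : EN N | 4 * √(N : ℝ) < ‖a‖} := by
      ext a; simp [hD]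
    rw [h2]
    refine (add_le_add (stdGaussian_large_norm hN) (stdGaussian_small_inner v hv)).trans ?_
    rw [← ENNReal.ofReal_add (by norm_num) (by norm_num)]
    apply ENNReal.ofReal_le_ofReal
    norm_num
  have h2 : ENNReal.ofReal (1 / 2) ≤ γ (D ∩ Aᶜ) := by
    have h3 : (Dᶜ ∪ A)ᶜ = D ∩ Aᶜ := by
      rw [Set.compl_union, compl_compl]
    rw [← h3, prob_compl_eq_one_sub (hDm.compl.union hAm)]
    have h4 : (1 : ℝ≥0∞) = ENNReal.ofReal (1 / 2) + ENNReal.ofReal (1 / 2) := by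
      rw [← ENNReal.ofReal_add (by norm_num) (by norm_num)]
      norm_num
    rw [h4]
    apply ENNReal.le_sub_of_add_le_right (ne_top_of_le_ne_top ENNReal.ofReal_ne_top h1)
    exact add_le_add le_rfl h1
  calc ENNReal.ofReal (1 / 4) = ENNReal.ofReal (1 / 2) * ENNReal.ofReal (1 / 2) := by
        rw [← ENNReal.ofReal_mul (by norm_num)]; norm_num
    _ ≤ ENNReal.ofReal (1 / 2) * γ (D ∩ Aᶜ) := by gcongr
    _ = ∫⁻ _a in D ∩ Aᶜ, ENNReal.ofReal (1 / 2) ∂γ := by rw [setLIntegral_const]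
    _ ≤ ∫⁻ a in D ∩ Aᶜ, ENNReal.ofReal |⟪v, a⟫| ∂γ := by
        apply setLIntegral_mono' (hDm.inter hAm.compl)
        intro a ha
        apply ENNReal.ofReal_le_ofReal
        have := ha.2
        simp only [hA, Set.mem_compl_iff, Set.mem_ofPred_eq, not_lt] at this
        exact this
    _ ≤ ∫⁻ a in D, ENNReal.ofReal |⟪v, a⟫| ∂γ :=
        lintegral_mono_set Set.inter_subset_left

end gauss

end Pool.Agent.Lib.MP_0852b5_an
end

section

set_option autoImplicit false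
open Module
open scoped RealInnerProductSpace

namespace Pool.Agent.Lib.MP_0852b5_an

/-- Hadamard's inequality for linear maps: `|det T| ≤ ∏ ‖T u_j‖` for an orthonormal basis `u`. -/
lemma abs_det_le_prod {N : ℕ} (T : EuclideanSpace ℝ (Fin N) →ₗ[ℝ] EuclideanSpace ℝ (Fin N))
    (u : OrthonormalBasis (Fin N) ℝ (EuclideanSpace ℝ (Fin N))) :
    |LinearMap.det T| ≤ ∏ j, ‖T (u j)‖ := by
  have : Fact (finrank ℝ (EuclideanSpace ℝ (Fin N)) = N) := ⟨by simp⟩
  let o : Orientation ℝ (EuclideanSpace ℝ (Fin N)) (Fin N) := u.toBasis.orientation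
  have h1 := o.abs_volumeForm_apply_le (fun j => T (u j))
  rw [o.volumeForm_robust' u] at h1
  have h2 : u.toBasis.det (fun j => T (u j)) = LinearMap.det T := by
    have h3 := u.toBasis.det_comp T u.toBasis
    rw [Basis.det_self, mul_one] at h3
    rw [← h3]
    congr 1
  rwa [h2] at h1

/-- The arithmetic-geometric mean inequality in product form. -/
lemma prod_le_mean_pow {ι : Type*} (s : Finset ι) (x : ι → ℝ) (hx : ∀ i ∈ s, 0 ≤ x i)
    (hs : 0 < s.card) : ∏ i ∈ s, x i ≤ ((∑ i ∈ s, x i) / s.card) ^ s.card := by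
  have hc : (0 : ℝ) < s.card := by exact_mod_cast hs
  have h1 := Real.geom_mean_le_arith_mean_weighted s (fun _ => (1 : ℝ) / s.card) x
    (fun i _ => by positivity) (by rw [Finset.sum_const, nsmul_eq_mul]; field_simp) hx
  have h2 : (∏ i ∈ s, x i ^ ((1 : ℝ) / s.card)) ^ s.card = ∏ i ∈ s, x i := by
    rw [← Finset.prod_pow]
    apply Finset.prod_congr rfl
    intro i hi
    rw [← Real.rpow_natCast, ← Real.rpow_mul (hx i hi)]
    field_simp
    simp
  rw [← h2]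
  have h3 : 0 ≤ ∏ i ∈ s, x i ^ ((1 : ℝ) / s.card) :=
    Finset.prod_nonneg (fun i hi => Real.rpow_nonneg (hx i hi) _)
  refine (pow_le_pow_left₀ h3 h1 _).trans (le_of_eq ?_)
  congr 1
  rw [Finset.sum_div]
  apply Finset.sum_congr rfl
  intro i _
  ring

/-- The key determinant estimate. `m i` are the rows of a lower triangular matrix with diagonal `c`
and entries bounded by `c`; `V` is a subspace of dimension at least `d`. -/
lemma exists_unit_vector {N d : ℕ} (hd : 0 < d) (hdN : d ≤ N) {c : ℝ} (hc : 0 < c)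
    (m : Fin N → EuclideanSpace ℝ (Fin N)) (hm : ∀ i j, |m i j| ≤ c)
    (htri : ∀ i j, i < j → m i j = 0) (hdiag : ∀ i, m i i = c)
    (V : Submodule ℝ (EuclideanSpace ℝ (Fin N))) (hV : d ≤ finrank ℝ V) :
    ∃ v ∈ V, ‖v‖ = 1 ∧ ∃ i, (c ^ 2) ^ d ≤
      ((N : ℝ) ^ 2) ^ (N - d) * ((N : ℝ) * ⟪m i, v⟫ ^ 2 / d) ^ d := by
  classical
  have hN : 0 < N := lt_of_lt_of_le hd hdN
  have hNr : (0 : ℝ) < N := by exact_mod_cast hN
  have hdr : (0 : ℝ) < d := by exact_mod_cast hd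
  -- orthonormal basis adapted to `V`
  let b := stdOrthonormalBasis ℝ V
  let s : Set (Fin N) := {i | (i : ℕ) < d}
  let w : Fin N → EuclideanSpace ℝ (Fin N) := fun i =>
    if h : (i : ℕ) < finrank ℝ V then (b ⟨i, h⟩ : EuclideanSpace ℝ (Fin N)) else 0
  have hw : Orthonormal ℝ (s.domRestrict w) := by
    have h1 : s.domRestrict w = (fun x => ((b x : V) : EuclideanSpace ℝ (Fin N))) ∘
        (fun i : s => (⟨(i : Fin N), lt_of_lt_of_le i.2 hV⟩ : Fin (finrank ℝ V))) := by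
      ext1 i
      have : ((i : Fin N) : ℕ) < finrank ℝ V := lt_of_lt_of_le i.2 hV
      simp only [Set.domRestrict_apply, w, this, dite_true, Function.comp]
    rw [h1]
    have h2 : Orthonormal ℝ (fun x => ((b x : V) : EuclideanSpace ℝ (Fin N))) :=
      b.orthonormal.comp_linearIsometry V.subtypeₗᵢ
    apply h2.comp
    intro i j hij
    have := congrArg Fin.val hij
    exact Subtype.ext (Fin.ext this)
  obtain ⟨u, hu⟩ := hw.exists_orthonormalBasis_extension_of_card_eq (by simp)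
  have huV : ∀ j : Fin N, (j : ℕ) < d → u j ∈ V := by
    intro j hj
    rw [hu j hj]
    have : (j : ℕ) < finrank ℝ V := lt_of_lt_of_le hj hV
    simp only [w, this, dite_true]
    exact (b ⟨j, this⟩).2
  -- the linear map with rows `m i`
  let A : Matrix (Fin N) (Fin N) ℝ := Matrix.of (fun i j => m i j)
  let T : EuclideanSpace ℝ (Fin N) →ₗ[ℝ] EuclideanSpace ℝ (Fin N) := Matrix.toLpLin 2 2 A
  have hT : ∀ x i, T x i = ⟪m i, x⟫ := by
    intro x i
    simp only [T, A, Matrix.toLpLin_apply]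
    simp only [Matrix.mulVec, dotProduct, Matrix.of_apply, PiLp.inner_apply]
    apply Finset.sum_congr rfl
    intro j _
    simp [mul_comm]
  have hdet : LinearMap.det T = c ^ N := by
    rw [LinearMap.det_toLpLin, Matrix.det_of_isLowerTriangular]
    · simp only [A, Matrix.of_apply, hdiag, Finset.prod_const, Finset.card_univ, Fintype.card_fin]
    · intro i j hij
      exact htri i j hij
  have hnormT : ∀ x, ‖T x‖ ^ 2 = ∑ i, ⟪m i, x⟫ ^ 2 := by
    intro x
    rw [EuclideanSpace.real_norm_sq_eq]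
    simp only [hT]
  have hmn : ∀ i, ‖m i‖ ^ 2 ≤ N * c ^ 2 := by
    intro i
    rw [EuclideanSpace.real_norm_sq_eq]
    calc ∑ j, m i j ^ 2 ≤ ∑ _j : Fin N, c ^ 2 := by
          apply Finset.sum_le_sum
          intro j _
          rw [← sq_abs]
          exact pow_le_pow_left₀ (abs_nonneg _) (hm i j) 2
      _ = N * c ^ 2 := by simp
  have hbig : ∀ j, ‖T (u j)‖ ^ 2 ≤ (N : ℝ) ^ 2 * c ^ 2 := by
    intro j
    rw [hnormT]
    calc ∑ i, ⟪m i, u j⟫ ^ 2 ≤ ∑ _i : Fin N, (N : ℝ) * c ^ 2 := by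
          apply Finset.sum_le_sum
          intro i _
          refine le_trans ?_ (hmn i)
          have h1 := abs_real_inner_le_norm (m i) (u j)
          rw [u.norm_eq_one, mul_one] at h1
          rw [← sq_abs]
          exact pow_le_pow_left₀ (abs_nonneg _) h1 2
      _ = (N : ℝ) ^ 2 * c ^ 2 := by simp; ring
  -- choose the row with the largest projection
  let J : Finset (Fin N) := Finset.univ.filter (fun j => (j : ℕ) < d)
  have hJ : J.card = d := by
    simp only [J]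
    rw [Fin.card_filter_val_lt, Nat.min_eq_right hdN]
  let p : Fin N → EuclideanSpace ℝ (Fin N) := fun i => ∑ j ∈ J, ⟪m i, u j⟫ • u j
  have hpV : ∀ i, p i ∈ V := fun i => Submodule.sum_mem _ (fun j hj =>
    V.smul_mem _ (huV j (Finset.mem_filter.mp hj).2))
  have hpn : ∀ i, ‖p i‖ ^ 2 = ∑ j ∈ J, ⟪m i, u j⟫ ^ 2 := by
    intro i
    rw [← real_inner_self_eq_norm_sq]
    simp only [p]
    rw [u.orthonormal.inner_sum]
    apply Finset.sum_congr rfl
    intro j _
    simp [pow_two]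
  have hpi : ∀ i, ⟪m i, p i⟫ = ‖p i‖ ^ 2 := by
    intro i
    rw [hpn]
    simp only [p, inner_sum, inner_smul_right]
    apply Finset.sum_congr rfl
    intro j _
    ring
  obtain ⟨i₀, -, hi₀⟩ := Finset.exists_max_image (Finset.univ : Finset (Fin N))
    (fun i => ‖p i‖ ^ 2) ⟨⟨0, hN⟩, Finset.mem_univ _⟩
  have hsum : ∑ j ∈ J, ‖T (u j)‖ ^ 2 ≤ N * ‖p i₀‖ ^ 2 := by
    calc ∑ j ∈ J, ‖T (u j)‖ ^ 2 = ∑ i, ‖p i‖ ^ 2 := by
          simp only [hnormT, hpn]
          rw [Finset.sum_comm]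
      _ ≤ ∑ _i : Fin N, ‖p i₀‖ ^ 2 := Finset.sum_le_sum (fun i hi => hi₀ i hi)
      _ = N * ‖p i₀‖ ^ 2 := by simp
  have hmain : (c ^ 2) ^ d ≤ ((N : ℝ) ^ 2) ^ (N - d) * ((N : ℝ) * ‖p i₀‖ ^ 2 / d) ^ d := by
    have h1 := abs_det_le_prod T u
    rw [hdet, abs_of_pos (pow_pos hc N)] at h1
    have h2 : (c ^ N) ^ 2 ≤ ∏ j, ‖T (u j)‖ ^ 2 := by
      rw [Finset.prod_pow]
      exact pow_le_pow_left₀ (pow_pos hc N).le h1 2
    have h3 : ∏ j, ‖T (u j)‖ ^ 2 =
        (∏ j ∈ J, ‖T (u j)‖ ^ 2) * ∏ j ∈ Jᶜ, ‖T (u j)‖ ^ 2 :=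
      (Finset.prod_mul_prod_compl J _).symm
    have h4 : ∏ j ∈ J, ‖T (u j)‖ ^ 2 ≤ ((N : ℝ) * ‖p i₀‖ ^ 2 / d) ^ d := by
      have h5 := prod_le_mean_pow J (fun j => ‖T (u j)‖ ^ 2) (fun j _ => by positivity)
        (by rw [hJ]; exact hd)
      rw [hJ] at h5
      refine h5.trans (pow_le_pow_left₀ ?_ ?_ _)
      · exact div_nonneg (Finset.sum_nonneg (fun j _ => by positivity)) hdr.le
      · exact div_le_div_of_nonneg_right hsum hdr.le
    have h6 : ∏ j ∈ Jᶜ, ‖T (u j)‖ ^ 2 ≤ ((N : ℝ) ^ 2 * c ^ 2) ^ (N - d) := by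
      calc ∏ j ∈ Jᶜ, ‖T (u j)‖ ^ 2 ≤ ∏ _j ∈ Jᶜ, ((N : ℝ) ^ 2 * c ^ 2) :=
            Finset.prod_le_prod (fun j _ => by positivity) (fun j _ => hbig j)
        _ = ((N : ℝ) ^ 2 * c ^ 2) ^ (N - d) := by
            rw [Finset.prod_const, Finset.card_compl, hJ, Fintype.card_fin]
    have h7 : (c ^ N) ^ 2 ≤ ((N : ℝ) * ‖p i₀‖ ^ 2 / d) ^ d * ((N : ℝ) ^ 2 * c ^ 2) ^ (N - d) := by
      refine h2.trans ?_
      rw [h3]
      exact mul_le_mul h4 h6 (Finset.prod_nonneg (fun j _ => by positivity)) (by positivity)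
    have h8 : (c ^ N) ^ 2 = (c ^ 2) ^ d * (c ^ 2) ^ (N - d) := by
      rw [← pow_mul, mul_comm N 2, pow_mul, ← pow_add]
      congr 1
      omega
    rw [h8, mul_pow] at h7
    have h9 : 0 < (c ^ 2) ^ (N - d) := by positivity
    have h10 : (c ^ 2) ^ d * (c ^ 2) ^ (N - d) ≤
        (((N : ℝ) ^ 2) ^ (N - d) * ((N : ℝ) * ‖p i₀‖ ^ 2 / d) ^ d) * (c ^ 2) ^ (N - d) := by
      calc _ ≤ _ := h7
        _ = _ := by ring
    exact le_of_mul_le_mul_right h10 h9
  have hp0 : 0 < ‖p i₀‖ := by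
    rcases (norm_nonneg (p i₀)).eq_or_lt with h | h
    · rw [← h] at hmain
      have h1 : 0 < (c ^ 2) ^ d := by positivity
      rw [zero_pow two_ne_zero, mul_zero, zero_div, zero_pow hd.ne', mul_zero] at hmain
      linarith
    · exact h
  refine ⟨(‖p i₀‖)⁻¹ • p i₀, V.smul_mem _ (hpV i₀), ?_, i₀, ?_⟩
  · rw [norm_smul, norm_inv, norm_norm, inv_mul_cancel₀ hp0.ne']
  · rw [inner_smul_right, hpi, show (‖p i₀‖)⁻¹ * ‖p i₀‖ ^ 2 = ‖p i₀‖ by
      rw [pow_two, ← mul_assoc, inv_mul_cancel₀ hp0.ne', one_mul]]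
    exact hmain

end Pool.Agent.Lib.MP_0852b5_an
end

section

set_option autoImplicit false
open scoped ENNReal NNReal
open MeasureTheory

namespace Pool.Agent.Lib.MP_0852b5_an

section gelfand

variable {X Y : Type} [NormedAddCommGroup X] [NormedSpace ℝ X]
  [NormedAddCommGroup Y] [NormedSpace ℝ Y]

/-- Every choice of `n` functionals leaves an element of `F` with zero information and image of
norm at least `c`. -/
def Gel (S : X →L[ℝ] Y) (F : Set X) (n : ℕ) (c : ℝ) : Prop :=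
  ∀ L : Fin n → (X →L[ℝ] ℝ), ∃ f ∈ F, (∀ i, L i f = 0) ∧ c ≤ ‖S f‖

lemma zero_mem_of_mem {F : Set X} (hconv : Convex ℝ F) (hsymm : ∀ f ∈ F, -f ∈ F) {f : X}
    (hf : f ∈ F) : (0 : X) ∈ F := by
  have h := hconv hf (hsymm f hf) (by norm_num : (0 : ℝ) ≤ 1 / 2) (by norm_num : (0 : ℝ) ≤ 1 / 2)
    (by norm_num)
  simpa using h

lemma smul_mem_of_mem {F : Set X} (hconv : Convex ℝ F) (hsymm : ∀ f ∈ F, -f ∈ F) {f : X}
    (hf : f ∈ F) {t : ℝ} (ht : |t| ≤ 1) : t • f ∈ F := by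
  have h0 := zero_mem_of_mem hconv hsymm hf
  rcases le_total 0 t with h | h
  · rw [abs_of_nonneg h] at ht
    have := hconv hf h0 h (by linarith : (0 : ℝ) ≤ 1 - t) (by ring)
    simpa using this
  · rw [abs_of_nonpos h] at ht
    have := hconv (hsymm f hf) h0 (by linarith : (0 : ℝ) ≤ -t) (by linarith : (0 : ℝ) ≤ 1 + t)
      (by ring)
    simpa using this

lemma exists_system {S : X →L[ℝ] Y} {F : Set X} (hconv : Convex ℝ F) (hsymm : ∀ f ∈ F, -f ∈ F)
    {N : ℕ} {c : ℝ} (hc : 0 < c) (h : Gel S F (N - 1) c) :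
    ∃ (f : Fin N → X) (lam : Fin N → (Y →L[ℝ] ℝ)), (∀ i, f i ∈ F) ∧ (∀ i, ‖lam i‖ ≤ 1) ∧
      (∀ i, lam i (S (f i)) = c) ∧ (∀ i j, |lam i (S (f j))| ≤ c) ∧
      ∀ i j, i < j → lam i (S (f j)) = 0 := by
  classical
  have key : ∀ t ≤ N, ∃ (f : ℕ → X) (lam : ℕ → (Y →L[ℝ] ℝ)), ∀ i < t, f i ∈ F ∧ ‖lam i‖ ≤ 1 ∧
      lam i (S (f i)) = c ∧ ‖S (f i)‖ = c ∧ ∀ j < i, lam j (S (f i)) = 0 := by
    intro t
    induction t with
    | zero => intro _; exact ⟨fun _ => 0, fun _ => 0, fun i hi => absurd hi (by omega)⟩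
    | succ t ih =>
      intro ht
      obtain ⟨f, lam, hfl⟩ := ih (by omega)
      obtain ⟨g, hgF, hg0, hgc⟩ := h (fun i => if (i : ℕ) < t then (lam i).comp S else 0)
      have hg0' : ∀ j < t, lam j (S g) = 0 := by
        intro j hj
        have := hg0 ⟨j, by omega⟩
        simpa [hj] using this
      have hgn : 0 < ‖S g‖ := lt_of_lt_of_le hc hgc
      set g' : X := (c / ‖S g‖) • g with hg'
      have hg'F : g' ∈ F := by
        apply smul_mem_of_mem hconv hsymm hgF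
        rw [abs_of_nonneg (by positivity), div_le_one hgn]
        exact hgc
      have hSg' : S g' = (c / ‖S g‖) • S g := by rw [hg', map_smul]
      have hng' : ‖S g'‖ = c := by
        rw [hSg', norm_smul, Real.norm_of_nonneg (by positivity)]
        field_simp
      have hne : ‖S g'‖ ≠ 0 := by
        rw [hng']; exact hc.ne'
      obtain ⟨l, hl1, hl2⟩ := exists_dual_vector ℝ (S g') hne
      refine ⟨Function.update f t g', Function.update lam t l, fun i hi => ?_⟩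
      rcases Nat.lt_succ_iff_lt_or_eq.mp hi with hi' | rfl
      · have hne : i ≠ t := by omega
        obtain ⟨h1, h2, h3, h4, h5⟩ := hfl i hi'
        rw [Function.update_of_ne hne, Function.update_of_ne hne]
        refine ⟨h1, h2, h3, h4, fun j hj => ?_⟩
        rw [Function.update_of_ne (by omega)]
        exact h5 j hj
      · rw [Function.update_self, Function.update_self]
        refine ⟨hg'F, hl1.le, ?_, hng', fun j hj => ?_⟩
        · rw [hl2, hng']; rfl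
        · rw [Function.update_of_ne (by omega), hSg', map_smul, hg0' j hj, smul_zero]
  obtain ⟨f, lam, hfl⟩ := key N le_rfl
  refine ⟨fun i => f i, fun i => lam i, fun i => (hfl i i.2).1, fun i => (hfl i i.2).2.1,
    fun i => (hfl i i.2).2.2.1, fun i j => ?_, fun i j hij => (hfl j j.2).2.2.2.2 i hij⟩
  have h1 := (lam i).le_opNorm (S (f j))
  rw [(hfl j j.2).2.2.2.1] at h1
  calc |lam i (S (f j))| ≤ ‖lam i‖ * c := h1
    _ ≤ 1 * c := mul_le_mul_of_nonneg_right (hfl i i.2).2.1 hc.le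
    _ = c := one_mul c

lemma eDet_le_of_not_gel {S : X →L[ℝ] Y} {F : Set X} (hconv : Convex ℝ F)
    (hsymm : ∀ f ∈ F, -f ∈ F) {n : ℕ} {c : ℝ} (h : ¬ Gel S F n c) :
    eDet S F n ≤ ENNReal.ofReal (2 * c) := by
  classical
  unfold Gel at h
  push Not at h
  obtain ⟨L, hL⟩ := h
  let φ : (Fin n → ℝ) → Y := fun y => if hy : ∃ f ∈ F, info L f = y then S hy.choose else 0
  refine (iInf₂_le L φ).trans ?_
  unfold detErr
  refine iSup_le (fun f => ?_)
  have hy : ∃ g ∈ F, info L g = info L (f : X) := ⟨f, f.2, rfl⟩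
  have h1 : φ (info L (f : X)) = S hy.choose := by
    simp only [φ]
    rw [dif_pos hy]
  obtain ⟨hg1, hg2⟩ := hy.choose_spec
  set g := hy.choose with hg
  rw [h1]
  have h2 : ((1 / 2 : ℝ) • (f : X) + (1 / 2 : ℝ) • (-g)) ∈ F :=
    hconv f.2 (hsymm g hg1) (by norm_num) (by norm_num) (by norm_num)
  have h3 := hL _ h2 (fun i => by
    have := congrFun hg2 i
    simp only [info] at this
    simp [this])
  have h4 : S (f : X) - S g = (2 : ℝ) • S ((1 / 2 : ℝ) • (f : X) + (1 / 2 : ℝ) • (-g)) := by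
    rw [map_add, map_smul, map_smul, map_neg, smul_add, smul_smul, smul_smul]
    norm_num
    abel
  rw [← ofReal_norm, h4, norm_smul]
  apply ENNReal.ofReal_le_ofReal
  rw [Real.norm_of_nonneg (by norm_num)]
  linarith

lemma eDet_antitone (S : X →L[ℝ] Y) (F : Set X) : Antitone (eDet S F) := by
  intro n m hnm
  unfold eDet
  refine le_iInf₂ (fun L φ => ?_)
  refine (iInf₂_le (fun i : Fin m => if h : (i : ℕ) < n then L ⟨i, h⟩ else 0)
    (fun y => φ (fun i => y ⟨i, lt_of_lt_of_le i.2 hnm⟩))).trans ?_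
  unfold detErr
  refine iSup_mono (fun f => ?_)
  have : (fun i : Fin n => info (fun i : Fin m => if h : (i : ℕ) < n then L ⟨i, h⟩ else 0)
      (f : X) ⟨i, lt_of_lt_of_le i.2 hnm⟩) = info L (f : X) := by
    ext i
    simp [info]
  show ‖S (f : X) - φ (fun i : Fin n => info (fun i : Fin m => if h : (i : ℕ) < n then L ⟨i, h⟩
    else 0) (f : X) ⟨i, lt_of_lt_of_le i.2 hnm⟩)‖ₑ ≤ _
  rw [this]

end gelfand

end Pool.Agent.Lib.MP_0852b5_an
end

section

set_option autoImplicit false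
open Module MeasureTheory ProbabilityTheory
open scoped RealInnerProductSpace ENNReal NNReal

namespace Pool.Agent.Lib.MP_0852b5_an

section ran

variable {X Y : Type} [NormedAddCommGroup X] [NormedSpace ℝ X]
  [NormedAddCommGroup Y] [NormedSpace ℝ Y]

lemma abs_conv_mem {F : Set X} (hconv : Convex ℝ F) (hsymm : ∀ f ∈ F, -f ∈ F) {N : ℕ}
    (hN : 0 < N) (f : Fin N → X) (hf : ∀ i, f i ∈ F) (w : Fin N → ℝ) (hw : ∑ j, |w j| ≤ 1) :
    ∑ j, w j • f j ∈ F := by
  have h0 : (0 : X) ∈ F := zero_mem_of_mem hconv hsymm (hf ⟨0, hN⟩)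
  set s := ∑ j, |w j| with hs
  have hs0 : 0 ≤ s := Finset.sum_nonneg (fun j _ => abs_nonneg _)
  rcases hs0.eq_or_lt with h | h
  · have hz : ∀ j, w j = 0 := by
      intro j
      have h1 : |w j| ≤ s := Finset.single_le_sum (f := fun j => |w j|)
        (fun i _ => abs_nonneg _) (Finset.mem_univ j)
      rw [← h] at h1
      exact abs_eq_zero.mp (le_antisymm h1 (abs_nonneg _))
    simp only [hz, zero_smul, Finset.sum_const_zero]
    exact h0
  · have h1 : ∑ j, (|w j| / s) • ((SignType.sign (w j) : ℝ) • f j) ∈ F := by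
      apply hconv.sum_mem (fun j _ => by positivity)
      · rw [← Finset.sum_div, ← hs, div_self h.ne']
      · intro j _
        apply smul_mem_of_mem hconv hsymm (hf j)
        rcases lt_trichotomy (w j) 0 with h2 | h2 | h2
        · simp [h2]
        · simp [h2]
        · simp [h2]
    have h2 := smul_mem_of_mem hconv hsymm h1 (t := s) (by rw [abs_of_pos h]; exact hw)
    have h3 : s • ∑ j, (|w j| / s) • ((SignType.sign (w j) : ℝ) • f j) = ∑ j, w j • f j := by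
      rw [Finset.smul_sum]
      apply Finset.sum_congr rfl
      intro j _
      rw [smul_smul, smul_smul]
      congr 1
      rw [mul_div_cancel₀ _ h.ne', mul_comm]
      exact sign_mul_abs (w j)
    rw [h3] at h2
    exact h2

/-- The test points: `a ↦ (4N)⁻¹ ∑ a_j f_j`. -/
noncomputable def tp {N : ℕ} (f : Fin N → X) : EN N →L[ℝ] X :=
  ∑ j, (EuclideanSpace.proj j : EN N →L[ℝ] ℝ).smulRight ((1 / (4 * (N : ℝ))) • f j)

lemma tp_apply {N : ℕ} (f : Fin N → X) (a : EN N) :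
    tp f a = ∑ j, (a j / (4 * (N : ℝ))) • f j := by
  unfold tp
  rw [sum_apply]
  apply Finset.sum_congr rfl
  intro j _
  simp [smul_smul, div_eq_mul_inv]

lemma tp_mem {F : Set X} (hconv : Convex ℝ F) (hsymm : ∀ f ∈ F, -f ∈ F) {N : ℕ}
    (hN : 0 < N) (f : Fin N → X) (hf : ∀ i, f i ∈ F) (a : EN N) (ha : ‖a‖ ≤ 4 * √(N : ℝ)) :
    tp f a ∈ F := by
  rw [tp_apply]
  apply abs_conv_mem hconv hsymm hN f hf
  have hNr : (0 : ℝ) < N := by exact_mod_cast hN
  have h1 : ∑ j, |a j / (4 * (N : ℝ))| = (∑ j, |a j|) / (4 * N) := by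
    rw [Finset.sum_div]
    apply Finset.sum_congr rfl
    intro j _
    rw [abs_div, abs_of_pos (show (0 : ℝ) < 4 * N by positivity)]
  rw [h1, div_le_one (by positivity)]
  have h2 : (∑ j, |a j|) ^ 2 ≤ N * ∑ j, |a j| ^ 2 := by
    have := sq_sum_le_card_mul_sum_sq (s := (Finset.univ : Finset (Fin N))) (f := fun j => |a j|)
    simpa using this
  have h3 : ∑ j, |a j| ^ 2 = ‖a‖ ^ 2 := by
    rw [EuclideanSpace.real_norm_sq_eq]
    apply Finset.sum_congr rfl
    intro j _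
    rw [sq_abs]
  rw [h3] at h2
  have h4 : ‖a‖ ^ 2 ≤ 16 * N := by
    calc ‖a‖ ^ 2 ≤ (4 * √(N : ℝ)) ^ 2 := pow_le_pow_left₀ (norm_nonneg _) ha 2
      _ = 16 * N := by rw [mul_pow, Real.sq_sqrt hNr.le]; norm_num
  have h5 : (∑ j, |a j|) ^ 2 ≤ (4 * N) ^ 2 := by
    calc (∑ j, |a j|) ^ 2 ≤ N * ‖a‖ ^ 2 := h2
      _ ≤ N * (16 * N) := mul_le_mul_of_nonneg_left h4 hNr.le
      _ = (4 * N) ^ 2 := by ring
  exact le_of_sq_le_sq h5 (by positivity)

/-- Retraction to the ball of radius `4 √N`. -/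
noncomputable def retr {N : ℕ} (a : EN N) : EN N :=
  ((4 * √(N : ℝ)) / max (4 * √(N : ℝ)) ‖a‖) • a

lemma retr_norm {N : ℕ} (hN : 0 < N) (a : EN N) : ‖retr a‖ ≤ 4 * √(N : ℝ) := by
  have hNr : (0 : ℝ) < N := by exact_mod_cast hN
  have h0 : (0 : ℝ) < 4 * √(N : ℝ) := by positivity
  unfold retr
  have h1 : (0 : ℝ) < max (4 * √(N : ℝ)) ‖a‖ := lt_max_of_lt_left h0
  rw [norm_smul, Real.norm_of_nonneg (by positivity), div_mul_eq_mul_div, div_le_iff₀ h1]
  exact mul_le_mul_of_nonneg_left (le_max_right _ _) h0.le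

lemma retr_eq {N : ℕ} (hN : 0 < N) (a : EN N) (ha : ‖a‖ ≤ 4 * √(N : ℝ)) : retr a = a := by
  have hNr : (0 : ℝ) < N := by exact_mod_cast hN
  have h0 : (0 : ℝ) < 4 * √(N : ℝ) := by positivity
  unfold retr
  rw [max_eq_left ha, div_self h0.ne', one_smul]

lemma continuous_retr {N : ℕ} (hN : 0 < N) : Continuous (retr : EN N → EN N) := by
  have hNr : (0 : ℝ) < N := by exact_mod_cast hN
  have h0 : (0 : ℝ) < 4 * √(N : ℝ) := by positivity
  unfold retr
  refine Continuous.smul (Continuous.div continuous_const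
    (continuous_const.max continuous_norm) (fun a => ?_)) continuous_id
  exact (lt_max_of_lt_left h0).ne'

/-- The lower bound for the inner integral, for one deterministic non-adaptive algorithm. -/
lemma inner_lower {S : X →L[ℝ] Y} {n N : ℕ} (hn : n < N) {c : ℝ} (hc : 0 < c)
    (f : Fin N → X) (lam : Fin N → (Y →L[ℝ] ℝ)) (hlam : ∀ i, ‖lam i‖ ≤ 1)
    (hdiag : ∀ i, lam i (S (f i)) = c) (hbd : ∀ i j, |lam i (S (f j))| ≤ c)
    (htri : ∀ i j, i < j → lam i (S (f j)) = 0)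
    {x : ℝ} (hx : 0 ≤ x)
    (hxx : ∀ y : ℝ, (c ^ 2) ^ (N - n) ≤
      ((N : ℝ) ^ 2) ^ n * ((N : ℝ) * y ^ 2 / (N - n : ℕ)) ^ (N - n) → x ≤ |y|)
    (L : Fin n → (X →L[ℝ] ℝ)) (φ : (Fin n → ℝ) → Y)
    (hmeas : Measurable (fun a : EN N => ‖S (tp f (retr a)) - φ (info L (tp f (retr a)))‖ₑ)) :
    ENNReal.ofReal (x / (16 * N)) ≤ ∫⁻ a in {a : EN N | ‖a‖ ≤ 4 * √(N : ℝ)},
      ‖S (tp f (retr a)) - φ (info L (tp f (retr a)))‖ₑ ∂(stdGaussian (EN N)) := by
  classical
  have hN : 0 < N := by omega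
  have hNr : (0 : ℝ) < N := by exact_mod_cast hN
  -- the kernel
  let K : EN N →ₗ[ℝ] (Fin n → ℝ) :=
    { toFun := fun a i => L i (tp f a)
      map_add' := fun a b => by ext i; simp
      map_smul' := fun t a => by ext i; simp }
  have hK : N - n ≤ finrank ℝ (LinearMap.ker K) := by
    have h1 := LinearMap.finrank_range_add_finrank_ker K
    have h2 : finrank ℝ (LinearMap.range K) ≤ n := by
      have := Submodule.finrank_le (LinearMap.range K)
      simpa using this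
    have h3 : finrank ℝ (EN N) = N := by simp
    omega
  let m : Fin N → EN N := fun i => WithLp.toLp 2 (fun j => lam i (S (f j)))
  obtain ⟨v, hvK, hv1, i, hi⟩ := exists_unit_vector (N := N) (d := N - n) (by omega) (by omega) hc m
    (fun i j => hbd i j) (fun i j hij => htri i j hij) (fun i => hdiag i) (LinearMap.ker K) hK
  rw [show N - (N - n) = n by omega] at hi
  have hxv : x ≤ |⟪m i, v⟫| := hxx _ hi
  have hLv : ∀ i, L i (tp f v) = 0 := by
    intro i
    have h1 : K v = 0 := hvK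
    exact congrFun h1 i
  -- norm of the image of `v`
  have hTv : x / (4 * N) ≤ ‖S (tp f v)‖ := by
    have h1 : lam i (S (tp f v)) = ⟪m i, v⟫ / (4 * N) := by
      rw [tp_apply, map_sum, map_sum, PiLp.inner_apply, Finset.sum_div]
      apply Finset.sum_congr rfl
      intro j _
      rw [map_smul, map_smul]
      simp [m]
      ring
    have h2 := (lam i).le_opNorm (S (tp f v))
    rw [h1, Real.norm_eq_abs, abs_div, abs_of_pos (show (0 : ℝ) < 4 * N by positivity)] at h2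
    calc x / (4 * N) ≤ |⟪m i, v⟫| / (4 * N) := div_le_div_of_nonneg_right hxv (by positivity)
      _ ≤ ‖lam i‖ * ‖S (tp f v)‖ := h2
      _ ≤ 1 * ‖S (tp f v)‖ := mul_le_mul_of_nonneg_right (hlam i) (norm_nonneg _)
      _ = ‖S (tp f v)‖ := one_mul _
  -- the reflection
  let ρ : EN N ≃ₗᵢ[ℝ] EN N := (ℝ ∙ v)ᗮ.reflection
  have hρ : ∀ a, ρ a = a - (2 * ⟪v, a⟫) • v := by
    intro a
    show (ℝ ∙ v)ᗮ.reflection a = _
    rw [Submodule.reflection_orthogonal_apply, Submodule.reflection_singleton_apply, hv1]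
    simp [two_smul, two_mul, add_smul]
  set γ := stdGaussian (EN N) with hγ
  have hmp : MeasurePreserving ρ γ γ := ⟨ρ.continuous.measurable, stdGaussian_map ρ⟩
  have hemb : MeasurableEmbedding ρ := ρ.toHomeomorph.measurableEmbedding
  set D : Set (EN N) := {a | ‖a‖ ≤ 4 * √(N : ℝ)} with hD
  have hDm : MeasurableSet D := measurableSet_le (by fun_prop) (by fun_prop)
  have hpre : ρ ⁻¹' D = D := by
    ext a
    simp [hD]
  set err : EN N → ℝ≥0∞ := fun a => ‖S (tp f (retr a)) - φ (info L (tp f (retr a)))‖ₑ with herr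
  have h1 : ∫⁻ a in D, err (ρ a) ∂γ = ∫⁻ a in D, err a ∂γ := by
    have := hmp.setLIntegral_comp_preimage_emb hemb err D
    rwa [hpre] at this
  have hpt : ∀ a ∈ D, ENNReal.ofReal |⟪v, a⟫| * ENNReal.ofReal (x / (2 * N)) ≤
      err a + err (ρ a) := by
    intro a ha
    have ha' : ‖a‖ ≤ 4 * √(N : ℝ) := ha
    have hra : ‖ρ a‖ ≤ 4 * √(N : ℝ) := by rw [ρ.norm_map]; exact ha'
    simp only [herr]
    rw [retr_eq hN a ha', retr_eq hN (ρ a) hra]
    have hinfo : info L (tp f (ρ a)) = info L (tp f a) := by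
      ext i
      simp only [info]
      rw [hρ, map_sub, map_smul, map_sub, map_smul, hLv i, smul_zero, sub_zero]
    rw [hinfo]
    set y := φ (info L (tp f a)) with hy
    have h2 : S (tp f a) - S (tp f (ρ a)) = (2 * ⟪v, a⟫) • S (tp f v) := by
      rw [hρ, map_sub, map_smul, map_sub, map_smul]
      abel
    have h3 : ‖S (tp f a) - S (tp f (ρ a))‖ₑ ≤ ‖S (tp f a) - y‖ₑ + ‖S (tp f (ρ a)) - y‖ₑ := by
      have h4 : S (tp f a) - S (tp f (ρ a)) = (S (tp f a) - y) - (S (tp f (ρ a)) - y) := by abel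
      rw [h4]
      exact enorm_sub_le
    refine le_trans ?_ h3
    rw [h2, ← ofReal_norm, norm_smul, Real.norm_eq_abs, abs_mul, abs_two]
    rw [← ENNReal.ofReal_mul (abs_nonneg _)]
    apply ENNReal.ofReal_le_ofReal
    calc |⟪v, a⟫| * (x / (2 * N)) = (2 * |⟪v, a⟫|) * (x / (4 * N)) := by
          field_simp; ring
      _ ≤ (2 * |⟪v, a⟫|) * ‖S (tp f v)‖ := mul_le_mul_of_nonneg_left hTv (by positivity)
  have h5 : ∫⁻ a in D, ENNReal.ofReal |⟪v, a⟫| * ENNReal.ofReal (x / (2 * N)) ∂γ ≤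
      2 * ∫⁻ a in D, err a ∂γ := by
    calc ∫⁻ a in D, ENNReal.ofReal |⟪v, a⟫| * ENNReal.ofReal (x / (2 * N)) ∂γ
        ≤ ∫⁻ a in D, (err a + err (ρ a)) ∂γ := setLIntegral_mono' hDm hpt
      _ = ∫⁻ a in D, err a ∂γ + ∫⁻ a in D, err (ρ a) ∂γ := lintegral_add_left hmeas _
      _ = 2 * ∫⁻ a in D, err a ∂γ := by rw [h1, two_mul]
  rw [lintegral_mul_const _ (by fun_prop)] at h5
  have h6 := setLIntegral_inner hN v hv1
  have h7 : ENNReal.ofReal (1 / 4) * ENNReal.ofReal (x / (2 * N)) ≤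
      2 * ∫⁻ a in D, err a ∂γ := le_trans (by gcongr) h5
  have h8 : ENNReal.ofReal (1 / 4) * ENNReal.ofReal (x / (2 * N)) =
      2 * ENNReal.ofReal (x / (16 * N)) := by
    rw [← ENNReal.ofReal_mul (by norm_num), two_mul (ENNReal.ofReal (x / (16 * N))),
      ← ENNReal.ofReal_add (by positivity) (by positivity)]
    congr 1
    field_simp
    ring
  rw [h8] at h7
  exact (ENNReal.mul_le_mul_iff_right (by norm_num) (by norm_num)).mp h7

omit [NormedSpace ℝ Y] in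
/-- Joint measurability of the error. -/
lemma joint_meas {E : Type} [TopologicalSpace E] [TopologicalSpace.MetrizableSpace E]
    [MeasurableSpace E] [BorelSpace E] [SecondCountableTopology E]
    {F : Set X} {n : ℕ} (T : E → Y) (hT : Continuous T) (Q : E → F) (hQc : Continuous Q)
    {Ω : Type} [MeasurableSpace Ω] [MeasurableSpace Y] [BorelSpace Y] [MeasurableSpace F]
    [BorelSpace F] (L : Ω → Fin n → (X →L[ℝ] ℝ)) (φ : Ω → (Fin n → ℝ) → Y)
    (hA : Measurable (fun p : Ω × F => φ p.1 (info (L p.1) (p.2 : X)))) :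
    Measurable (Function.uncurry (fun (a : E) (ω : Ω) =>
      ‖T a - φ ω (info (L ω) (Q a : X))‖ₑ)) := by
  have hQm : Measurable Q := hQc.measurable
  have hA3 : Measurable (fun p : E × Ω => φ p.2 (info (L p.2) (Q p.1 : X))) :=
    hA.comp (measurable_snd.prodMk (hQm.comp measurable_fst))
  let u : E → E × Ω → ℝ := fun b p =>
    ‖T b - φ p.2 (info (L p.2) (Q p.1 : X))‖
  have hjoint : Measurable (Function.uncurry u) := by
    apply measurable_uncurry_of_continuous_of_measurable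
    · intro p
      exact (hT.sub continuous_const).norm
    · intro b
      have h1 : Continuous (fun y : Y => ‖T b - y‖) := by fun_prop
      exact h1.measurable.comp hA3
  have hg : Measurable (fun p : E × Ω => ((p.1, p) : E × (E × Ω))) :=
    measurable_fst.prodMk measurable_id
  have hu : Measurable (fun p : E × Ω => u p.1 p) := hjoint.comp hg
  have h2 := hu.ennreal_ofReal
  have h3 : (fun p : E × Ω => ENNReal.ofReal (u p.1 p)) = Function.uncurry (fun (a : E) (ω : Ω) =>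
      ‖T a - φ ω (info (L ω) (Q a : X))‖ₑ) := by
    funext p
    exact ofReal_norm _
  rw [h3] at h2
  exact h2

/-- The lower bound for randomized non-adaptive algorithms. -/
lemma ranErr_ge_aux {S : X →L[ℝ] Y} {F : Set X} {n N : ℕ} (hn : n < N) {c : ℝ} (hc : 0 < c)
    (f : Fin N → X) (lam : Fin N → (Y →L[ℝ] ℝ)) (hlam : ∀ i, ‖lam i‖ ≤ 1)
    (hdiag : ∀ i, lam i (S (f i)) = c) (hbd : ∀ i j, |lam i (S (f j))| ≤ c)
    (htri : ∀ i j, i < j → lam i (S (f j)) = 0)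
    {x : ℝ} (hx : 0 ≤ x)
    (hxx : ∀ y : ℝ, (c ^ 2) ^ (N - n) ≤
      ((N : ℝ) ^ 2) ^ n * ((N : ℝ) * y ^ 2 / (N - n : ℕ)) ^ (N - n) → x ≤ |y|)
    {Ω : Type} [MeasurableSpace Ω] (P : Measure Ω) [IsProbabilityMeasure P]
    (L : Ω → Fin n → (X →L[ℝ] ℝ)) (φ : Ω → (Fin n → ℝ) → Y)
    (hF : ∀ a : EN N, tp f (retr a) ∈ F)
    (hmeas : Measurable (Function.uncurry (fun (a : EN N) (ω : Ω) =>
      ‖S (tp f (retr a)) - φ ω (info (L ω) (tp f (retr a)))‖ₑ))) {R : ℝ≥0∞}
    (hR : ∀ g ∈ F, ∫⁻ ω, ‖S g - φ ω (info (L ω) g)‖ₑ ∂P ≤ R) :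
    ENNReal.ofReal (x / (16 * N)) ≤ R := by
  let err : EN N → Ω → ℝ≥0∞ := fun a ω =>
    ‖S (tp f (retr a)) - φ ω (info (L ω) (tp f (retr a)))‖ₑ
  set γ := stdGaussian (EN N) with hγ
  set D : Set (EN N) := {a | ‖a‖ ≤ 4 * √(N : ℝ)} with hD
  have hswap : ∫⁻ a, ∫⁻ ω, err a ω ∂P ∂(γ.restrict D) =
      ∫⁻ ω, ∫⁻ a, err a ω ∂(γ.restrict D) ∂P :=
    lintegral_lintegral_swap (f := err) (μ := γ.restrict D) (ν := P) hmeas.aemeasurable
  have h1 : ∀ a, ∫⁻ ω, err a ω ∂P ≤ R := fun a => hR _ (hF a)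
  have h2 : ∀ ω, ENNReal.ofReal (x / (16 * N)) ≤ ∫⁻ a, err a ω ∂(γ.restrict D) := by
    intro ω
    have h3 : Measurable (fun a => err a ω) := hmeas.of_uncurry_right
    exact inner_lower hn hc f lam hlam hdiag hbd htri hx hxx (L ω) (φ ω) h3
  calc ENNReal.ofReal (x / (16 * N)) = ∫⁻ _ω, ENNReal.ofReal (x / (16 * N)) ∂P := by
        rw [lintegral_const, measure_univ, mul_one]
    _ ≤ ∫⁻ ω, ∫⁻ a, err a ω ∂(γ.restrict D) ∂P := lintegral_mono h2
    _ = ∫⁻ a, ∫⁻ ω, err a ω ∂P ∂(γ.restrict D) := hswap.symm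
    _ ≤ ∫⁻ _a, R ∂(γ.restrict D) := lintegral_mono h1
    _ = R * γ D := by rw [lintegral_const, Measure.restrict_apply_univ]
    _ ≤ R * 1 := by gcongr; exact prob_le_one
    _ = R := mul_one _

/-- The lower bound for randomized non-adaptive algorithms. -/
lemma ranErr_ge {S : X →L[ℝ] Y} {F : Set X} (hconv : Convex ℝ F) (hsymm : ∀ f ∈ F, -f ∈ F)
    {n N : ℕ} (hn : n < N) {c : ℝ} (hc : 0 < c)
    (f : Fin N → X) (lam : Fin N → (Y →L[ℝ] ℝ)) (hfF : ∀ i, f i ∈ F) (hlam : ∀ i, ‖lam i‖ ≤ 1)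
    (hdiag : ∀ i, lam i (S (f i)) = c) (hbd : ∀ i j, |lam i (S (f j))| ≤ c)
    (htri : ∀ i j, i < j → lam i (S (f j)) = 0)
    {x : ℝ} (hx : 0 ≤ x)
    (hxx : ∀ y : ℝ, (c ^ 2) ^ (N - n) ≤
      ((N : ℝ) ^ 2) ^ n * ((N : ℝ) * y ^ 2 / (N - n : ℕ)) ^ (N - n) → x ≤ |y|)
    (A : RandAlg Y F n) : ENNReal.ofReal (x / (16 * N)) ≤ ranErr S F A := by
  have hN : 0 < N := by omega
  have hF : ∀ a : EN N, tp f (retr a) ∈ F := fun a =>
    tp_mem hconv hsymm hN f hfF _ (retr_norm hN a)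
  have hm := @joint_meas X Y _ _ _ (EN N) _ _ _ _ _ F n (fun a => S (tp f (retr a)))
    ((S.continuous.comp (tp f).continuous).comp (continuous_retr hN))
    (fun a => ⟨tp f (retr a), hF a⟩)
    (Continuous.subtype_mk ((tp f).continuous.comp (continuous_retr hN)) _)
    A.Ω A.mΩ (borel Y) (@BorelSpace.mk Y _ (borel Y) rfl) (borel F)
    (@BorelSpace.mk F _ (borel F) rfl) A.L A.φ A.meas
  refine @ranErr_ge_aux X Y _ _ _ _ S F n N hn c hc f lam hlam hdiag hbd htri x hx hxx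
    A.Ω A.mΩ A.P ⟨A.prob⟩ A.L A.φ hF hm (ranErr S F A) ?_
  intro g hg
  exact le_iSup (fun g : F => @lintegral A.Ω A.mΩ A.P
      (fun ω => ‖S g - A.φ ω (info (A.L ω) g)‖ₑ)) ⟨g, hg⟩

end ran

end Pool.Agent.Lib.MP_0852b5_an
end

section

set_option autoImplicit false
open Module MeasureTheory ProbabilityTheory
open scoped RealInnerProductSpace ENNReal NNReal

namespace Pool.Agent.Lib.MP_0852b5_an

section rates

variable {X Y : Type} [NormedAddCommGroup X] [NormedSpace ℝ X]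
  [NormedAddCommGroup Y] [NormedSpace ℝ Y]

/-- the constant in the comparison -/
noncomputable def kap (N d n : ℕ) : ℝ := √((d : ℝ) / N) * (N : ℝ) ^ (-((n : ℝ) / d))

lemma kap_pos {N d n : ℕ} (hN : 0 < N) (hd : 0 < d) : 0 < kap N d n := by
  unfold kap
  have hNr : (0 : ℝ) < N := by exact_mod_cast hN
  have hdr : (0 : ℝ) < d := by exact_mod_cast hd
  positivity

lemma kap_le_abs {N d n : ℕ} (hN : 0 < N) (hd : 0 < d) {c : ℝ} (hc : 0 < c) (y : ℝ)
    (h : (c ^ 2) ^ d ≤ ((N : ℝ) ^ 2) ^ n * ((N : ℝ) * y ^ 2 / d) ^ d) : c * kap N d n ≤ |y| := by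
  have hNr : (0 : ℝ) < N := by exact_mod_cast hN
  have hdr : (0 : ℝ) < d := by exact_mod_cast hd
  -- write `N^(2n)` as a `d`-th power
  set w : ℝ := (N : ℝ) ^ ((n : ℝ) / d) with hw
  have hw0 : 0 < w := by positivity
  have hwd : ((N : ℝ) ^ 2) ^ n = (w ^ 2) ^ d := by
    rw [← pow_mul, ← pow_mul, hw, ← Real.rpow_natCast (((N : ℝ) ^ ((n : ℝ) / d))) (2 * d),
      ← Real.rpow_mul hNr.le, ← Real.rpow_natCast]
    congr 1
    push_cast
    field_simp
  rw [hwd, ← mul_pow] at h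
  have h1 : c ^ 2 ≤ w ^ 2 * ((N : ℝ) * y ^ 2 / d) := by
    exact (pow_le_pow_iff_left₀ (by positivity) (by positivity) hd.ne').mp h
  have h2 : kap N d n = √((d : ℝ) / N) / w := by
    unfold kap
    rw [Real.rpow_neg hNr.le, ← hw]
    exact (div_eq_mul_inv _ _).symm
  rw [h2]
  apply le_of_sq_le_sq _ (abs_nonneg _)
  rw [sq_abs, mul_pow, div_pow, Real.sq_sqrt (by positivity)]
  rw [show c ^ 2 * ((d : ℝ) / N / w ^ 2) = c ^ 2 * d / (N * w ^ 2) by field_simp,
    div_le_iff₀ (by positivity)]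
  have h3 : w ^ 2 * ((N : ℝ) * y ^ 2 / d) * d = y ^ 2 * (N * w ^ 2) := by field_simp
  calc c ^ 2 * d ≤ w ^ 2 * ((N : ℝ) * y ^ 2 / d) * d := mul_le_mul_of_nonneg_right h1 hdr.le
    _ = y ^ 2 * (N * w ^ 2) := h3

lemma eDet_le_eRan {S : X →L[ℝ] Y} {F : Set X} (hconv : Convex ℝ F) (hsymm : ∀ f ∈ F, -f ∈ F)
    {n N : ℕ} (hn : n < N) :
    eDet S F (N - 1) ≤ ENNReal.ofReal (32 * N / kap N (N - n) n) * eRan S F n := by
  have hN : 0 < N := by omega
  have hd : 0 < N - n := by omega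
  have hNr : (0 : ℝ) < N := by exact_mod_cast hN
  have hk := kap_pos (n := n) hN hd
  set κ := kap N (N - n) n with hκ
  by_cases htop : eRan S F n = ⊤
  · rw [htop, ENNReal.mul_top (by simp; positivity)]
    exact le_top
  set e : ℝ := (eRan S F n).toReal with he
  have he0 : 0 ≤ e := ENNReal.toReal_nonneg
  have hee : eRan S F n = ENNReal.ofReal e := (ENNReal.ofReal_toReal htop).symm
  rw [hee, ← ENNReal.ofReal_mul (by positivity)]
  apply ENNReal.le_of_forall_pos_le_add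
  intro δ hδ _
  have hδr : (0 : ℝ) < δ := by exact_mod_cast hδ
  set c : ℝ := 16 * N * e / κ + δ / 2 with hcdef
  have hc : 0 < c := by positivity
  have hlt : e < c * κ / (16 * N) := by
    rw [lt_div_iff₀ (by positivity), hcdef, add_mul]
    have : 16 * N * e / κ * κ = 16 * N * e := by field_simp
    rw [this]
    nlinarith [mul_pos hδr hk]
  have hng : ¬ Gel S F (N - 1) c := by
    intro hg
    obtain ⟨f, lam, h1, h2, h3, h4, h5⟩ := exists_system hconv hsymm hc hg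
    have h6 : ENNReal.ofReal (c * κ / (16 * N)) ≤ eRan S F n := by
      unfold eRan
      refine le_iInf (fun A => ?_)
      exact ranErr_ge hconv hsymm hn hc f lam h1 h2 h3 h4 h5 (by positivity)
        (fun y hy => kap_le_abs hN hd hc y hy) A
    rw [hee] at h6
    exact absurd ((ENNReal.ofReal_le_ofReal_iff he0).mp h6) (not_le.mpr hlt)
  refine (eDet_le_of_not_gel hconv hsymm hng).trans ?_
  rw [← ENNReal.ofReal_coe_nnreal, ← ENNReal.ofReal_add (by positivity) (by positivity)]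
  apply ENNReal.ofReal_le_ofReal
  rw [hcdef]
  have : 32 * N / κ * e = 2 * (16 * N * e / κ) := by field_simp; ring
  rw [this]
  linarith

lemma bound_eq {C : ℝ≥0} {n : ℕ} (hn : 1 ≤ n) (α : ℝ) :
    (C : ℝ≥0∞) * (n : ℝ≥0∞) ^ (-α) = ENNReal.ofReal ((C : ℝ) * (n : ℝ) ^ (-α)) := by
  rw [ENNReal.ofReal_mul (NNReal.coe_nonneg C), ENNReal.ofReal_coe_nnreal]
  congr 1
  rw [← ENNReal.ofReal_rpow_of_pos (by exact_mod_cast hn), ENNReal.ofReal_natCast]

lemma hasRate_eDet {S : X →L[ℝ] Y} {F : Set X} (hconv : Convex ℝ F) (hsymm : ∀ f ∈ F, -f ∈ F)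
    {α β : ℝ≥0} (hαβ : β + 1 < α) (h : HasRate (eRan S F) α) : HasRate (eDet S F) β := by
  obtain ⟨C, hC⟩ := h
  have hαβr : (β : ℝ) + 1 < α := by exact_mod_cast hαβ
  have hβ0 : (0 : ℝ) ≤ β := β.2
  -- choose `k`
  obtain ⟨k, hk⟩ := exists_nat_gt (1 / ((α : ℝ) - 1 - β))
  have hd0 : 0 < (α : ℝ) - 1 - β := by linarith
  have hkr : (0 : ℝ) < k := lt_trans (by positivity) hk
  have hk0 : 0 < k := by exact_mod_cast hkr
  have hk1 : 1 / (k : ℝ) ≤ (α : ℝ) - 1 - β := by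
    rw [div_lt_iff₀ hd0] at hk
    rw [div_le_iff₀ hkr]
    linarith
  -- the first error is finite
  have h1 : eDet S F 1 ≤ ENNReal.ofReal (32 * (2 : ℕ) / kap 2 (2 - 1) 1 * C) := by
    have h2 := eDet_le_eRan (S := S) hconv hsymm (n := 1) (N := 2) (by norm_num)
    have h3 := hC 1 le_rfl
    rw [bound_eq le_rfl] at h3
    simp only [Nat.cast_one, Real.one_rpow, mul_one] at h3
    calc eDet S F 1 ≤ ENNReal.ofReal (32 * (2 : ℕ) / kap 2 (2 - 1) 1) * eRan S F 1 := h2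
      _ ≤ ENNReal.ofReal (32 * (2 : ℕ) / kap 2 (2 - 1) 1) * ENNReal.ofReal C := by gcongr
      _ = _ := by
          rw [← ENNReal.ofReal_mul]
          have := kap_pos (N := 2) (d := 2 - 1) (n := 1) (by norm_num) (by norm_num)
          positivity
  set C1 : ℝ := 32 * (2 : ℕ) / kap 2 (2 - 1) 1 * C with hC1
  have hC10 : 0 ≤ C1 := by
    have := kap_pos (N := 2) (d := 2 - 1) (n := 1) (by norm_num) (by norm_num)
    positivity
  set C2 : ℝ := 64 * C * ((k : ℝ) + 1) ^ (α : ℝ) * 2 ^ (β : ℝ) with hC2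
  have hC20 : 0 ≤ C2 := by positivity
  set C3 : ℝ := C1 * ((k : ℝ) + 1) ^ (β : ℝ) + C2 with hC3
  have hC30 : 0 ≤ C3 := by positivity
  refine ⟨Real.toNNReal C3, fun n' hn' => ?_⟩
  rw [bound_eq hn', Real.coe_toNNReal _ hC30]
  have hn'r : (0 : ℝ) < n' := by exact_mod_cast hn'
  show eDet S F n' ≤ ENNReal.ofReal (C3 * (n' : ℝ) ^ (-(β : ℝ)))
  by_cases hsmall : n' < k + 1
  · refine ((eDet_antitone S F hn').trans h1).trans ?_
    apply ENNReal.ofReal_le_ofReal
    have h2 : (1 : ℝ) ≤ ((k : ℝ) + 1) ^ (β : ℝ) * (n' : ℝ) ^ (-(β : ℝ)) := by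
      rw [Real.rpow_neg hn'r.le, ← div_eq_mul_inv, le_div_iff₀ (by positivity), one_mul]
      apply Real.rpow_le_rpow hn'r.le _ hβ0
      have : (n' : ℝ) < ((k + 1 : ℕ) : ℝ) := by exact_mod_cast hsmall
      push_cast at this
      linarith
    calc C1 = C1 * 1 := by ring
      _ ≤ C1 * (((k : ℝ) + 1) ^ (β : ℝ) * (n' : ℝ) ^ (-(β : ℝ))) :=
          mul_le_mul_of_nonneg_left h2 hC10
      _ = (C1 * ((k : ℝ) + 1) ^ (β : ℝ)) * (n' : ℝ) ^ (-(β : ℝ)) := by ring
      _ ≤ C3 * (n' : ℝ) ^ (-(β : ℝ)) := by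
          apply mul_le_mul_of_nonneg_right _ (by positivity)
          rw [hC3]; linarith
  · push Not at hsmall
    set n := n' / (k + 1) with hndef
    have hn1 : 1 ≤ n := (Nat.one_le_div_iff (by omega)).mpr hsmall
    set N := (k + 1) * n with hNdef
    have hNle : N ≤ n' := Nat.mul_div_le n' (k + 1)
    have hnN : n < N := by
      rw [hNdef]
      nlinarith
    have hNn : N - n = k * n := by
      rw [hNdef, add_mul, one_mul, Nat.add_sub_cancel]
    have hnr : (0 : ℝ) < n := by exact_mod_cast hn1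
    have hN0 : 0 < N := by omega
    have hNr : (0 : ℝ) < N := by exact_mod_cast hN0
    have hNr1 : (1 : ℝ) ≤ N := by exact_mod_cast hN0
    have hNeq : (N : ℝ) = ((k : ℝ) + 1) * n := by rw [hNdef]; push_cast; ring
    have hn'N : (n' : ℝ) ≤ 2 * N := by
      have h2 : n' < (k + 1) * (n + 1) := by
        rw [hndef]
        exact Nat.lt_mul_div_succ n' (by omega)
      have h3 : (k + 1) * (n + 1) ≤ 2 * N := by rw [hNdef]; nlinarith
      exact_mod_cast (h2.trans_le h3).le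
    have h2 := eDet_le_eRan (S := S) hconv hsymm hnN
    have h3 := hC n hn1
    rw [bound_eq hn1] at h3
    have hkap : (1 / 2) * (N : ℝ) ^ (-(1 / (k : ℝ))) ≤ kap N (N - n) n := by
      unfold kap
      rw [hNn]
      have h4 : ((n : ℝ) / ((k * n : ℕ) : ℝ)) = 1 / k := by push_cast; field_simp
      rw [h4]
      apply mul_le_mul_of_nonneg_right _ (by positivity)
      apply Real.le_sqrt_of_sq_le
      rw [hNeq]
      push_cast
      rw [show (k : ℝ) * n / (((k : ℝ) + 1) * n) = k / (k + 1) by field_simp]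
      rw [le_div_iff₀ (by positivity)]
      have : (1 : ℝ) ≤ k := by exact_mod_cast hk0
      nlinarith
    have hkp := kap_pos (N := N) (d := N - n) (n := n) hN0 (by omega)
    have h5 : 32 * (N : ℝ) / kap N (N - n) n ≤ 64 * (N : ℝ) ^ (1 + 1 / (k : ℝ)) := by
      rw [div_le_iff₀ hkp]
      calc 32 * (N : ℝ) = 64 * (N : ℝ) ^ (1 + 1 / (k : ℝ)) *
            ((1 / 2) * (N : ℝ) ^ (-(1 / (k : ℝ)))) := by
            rw [Real.rpow_add hNr, Real.rpow_one, Real.rpow_neg hNr.le]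
            have : (N : ℝ) ^ (1 / (k : ℝ)) ≠ 0 := by positivity
            field_simp
            norm_num
        _ ≤ _ := mul_le_mul_of_nonneg_left hkap (by positivity)
    calc eDet S F n' ≤ eDet S F (N - 1) := eDet_antitone S F (by omega)
      _ ≤ ENNReal.ofReal (32 * N / kap N (N - n) n) * eRan S F n := h2
      _ ≤ ENNReal.ofReal (64 * (N : ℝ) ^ (1 + 1 / (k : ℝ))) *
            ENNReal.ofReal ((C : ℝ) * (n : ℝ) ^ (-(α : ℝ))) := by gcongr
      _ = ENNReal.ofReal (64 * (N : ℝ) ^ (1 + 1 / (k : ℝ)) *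
            ((C : ℝ) * (n : ℝ) ^ (-(α : ℝ)))) := by
            rw [← ENNReal.ofReal_mul (by positivity)]
      _ ≤ ENNReal.ofReal (C3 * (n' : ℝ) ^ (-(β : ℝ))) := by
            apply ENNReal.ofReal_le_ofReal
            have h6 : (n : ℝ) ^ (-(α : ℝ)) = ((k : ℝ) + 1) ^ (α : ℝ) * (N : ℝ) ^ (-(α : ℝ)) := by
              rw [hNeq, Real.mul_rpow (by positivity) hnr.le, ← mul_assoc,
                ← Real.rpow_add (by positivity), add_neg_cancel, Real.rpow_zero, one_mul]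
            rw [h6]
            have h7 : (N : ℝ) ^ (1 + 1 / (k : ℝ)) * (N : ℝ) ^ (-(α : ℝ)) ≤
                (N : ℝ) ^ (-(β : ℝ)) := by
              rw [← Real.rpow_add hNr]
              apply Real.rpow_le_rpow_of_exponent_le hNr1
              linarith
            have h8 : (N : ℝ) ^ (-(β : ℝ)) ≤ 2 ^ (β : ℝ) * (n' : ℝ) ^ (-(β : ℝ)) := by
              rw [Real.rpow_neg hNr.le, Real.rpow_neg hn'r.le, ← div_eq_mul_inv,
                le_div_iff₀ (by positivity), inv_mul_le_iff₀ (by positivity),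
                mul_comm, ← Real.mul_rpow (by norm_num) hNr.le]
              exact Real.rpow_le_rpow hn'r.le hn'N hβ0
            calc 64 * (N : ℝ) ^ (1 + 1 / (k : ℝ)) * ((C : ℝ) *
                  (((k : ℝ) + 1) ^ (α : ℝ) * (N : ℝ) ^ (-(α : ℝ))))
                = 64 * C * ((k : ℝ) + 1) ^ (α : ℝ) *
                  ((N : ℝ) ^ (1 + 1 / (k : ℝ)) * (N : ℝ) ^ (-(α : ℝ))) := by ring
              _ ≤ 64 * C * ((k : ℝ) + 1) ^ (α : ℝ) * (2 ^ (β : ℝ) * (n' : ℝ) ^ (-(β : ℝ))) :=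
                  mul_le_mul_of_nonneg_left (h7.trans h8) (by positivity)
              _ = C2 * (n' : ℝ) ^ (-(β : ℝ)) := by rw [hC2]; ring
              _ ≤ C3 * (n' : ℝ) ^ (-(β : ℝ)) := by
                  apply mul_le_mul_of_nonneg_right _ (by positivity)
                  rw [hC3]
                  have : 0 ≤ C1 * ((k : ℝ) + 1) ^ (β : ℝ) := by positivity
                  linarith

lemma rate_le {S : X →L[ℝ] Y} {F : Set X} (hconv : Convex ℝ F) (hsymm : ∀ f ∈ F, -f ∈ F) :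
    rate (eRan S F) ≤ 1 + rate (eDet S F) := by
  unfold rate
  refine iSup_le ?_
  rintro ⟨α, hα, hrate⟩
  show (α : ℝ≥0∞) ≤ _
  apply ENNReal.le_of_forall_pos_le_add
  intro ε hε _
  by_cases hcase : α ≤ 1 + ε
  · calc (α : ℝ≥0∞) ≤ ((1 + ε : ℝ≥0) : ℝ≥0∞) := by exact_mod_cast hcase
      _ = 1 + (ε : ℝ≥0∞) := by push_cast; rfl
      _ ≤ _ := by gcongr; exact le_self_add
  · push Not at hcase
    set β : ℝ≥0 := α - (1 + ε) with hβ
    have hβ0 : 0 < β := tsub_pos_of_lt hcase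
    have hsum : β + (1 + ε) = α := tsub_add_cancel_of_le hcase.le
    have h1 : HasRate (eDet S F) β := by
      apply hasRate_eDet hconv hsymm _ hrate
      rw [← hsum]
      have : (1 : ℝ≥0) < 1 + ε := lt_add_of_pos_right _ hε
      gcongr
    have h2 : (β : ℝ≥0∞) ≤ ⨆ α : {α : ℝ≥0 // 0 < α ∧ HasRate (eDet S F) α},
        ((α : ℝ≥0) : ℝ≥0∞) :=
      le_iSup (fun α : {α : ℝ≥0 // 0 < α ∧ HasRate (eDet S F) α} => ((α : ℝ≥0) : ℝ≥0∞))
        ⟨β, hβ0, h1⟩
    calc (α : ℝ≥0∞) = ((β + (1 + ε) : ℝ≥0) : ℝ≥0∞) := by rw [hsum]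
      _ = (β : ℝ≥0∞) + (1 + ε) := by push_cast; rfl
      _ = 1 + (β : ℝ≥0∞) + ε := by ring
      _ ≤ _ := by gcongr

end rates

lemma gain_le_one (p : LinProblem) : gain p ≤ 1 := by
  unfold gain
  apply EReal.sub_le_of_le_add
  have h := rate_le (S := p.S) p.convex p.symm
  have h2 : ((rate (eRan p.S p.F) : ℝ≥0∞) : EReal) ≤
      ((1 + rate (eDet p.S p.F) : ℝ≥0∞) : EReal) := EReal.coe_ennreal_le_coe_ennreal_iff.mpr h
  rw [EReal.coe_ennreal_add] at h2
  simpa using h2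

theorem G_le_one : G ≤ 1 := iSup_le gain_le_one

end Pool.Agent.Lib.MP_0852b5_an
end
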